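import Mathlib
import Pool.Agent.Helper669.Forcing
set_option autoImplicit false

/-!
# Conditions for a generic ladder system on points of cofinality `ω` with uniformization

Adaptation of `Pool.Agent.R583.DCond`.
-/

namespace Pool.Agent.K7.H35.U

open Cardinal

/-- raw conditions: initial segments (below `top`) of a set `s`, of a ladder system `l` on `s`
and of the sets `y j`, `j ∈ supp` -/
@[ext]
structure Cond (X Θ : Type) where
  /-- the decided part consists of the points below `top` -/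
  top : X
  /-- the generic set of points -/
  s : Set X
  /-- the generic ladders -/
  l : X → Set X
  /-- the support -/
  supp : Set Θ
  /-- the coordinates -/
  y : Θ → Set X

section

variable {X Θ : Type} [LinearOrder X]

instance instPreorderCond : Preorder (Cond X Θ) where
  le q p := p.top ≤ q.top ∧ (∀ x < p.top, (x ∈ q.s ↔ x ∈ p.s) ∧ q.l x = p.l x) ∧
    p.supp ⊆ q.supp ∧ ∀ j ∈ p.supp, ∀ x < p.top, (x ∈ q.y j ↔ x ∈ p.y j)
  le_refl p := ⟨le_rfl, fun _ _ => ⟨Iff.rfl, rfl⟩, subset_rfl, fun _ _ _ _ => Iff.rfl⟩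
  le_trans r q p h h' := ⟨h'.1.trans h.1,
    fun x hx => ⟨((h.2.1 x (hx.trans_le h'.1)).1).trans (h'.2.1 x hx).1,
      ((h.2.1 x (hx.trans_le h'.1)).2).trans (h'.2.1 x hx).2⟩,
    h'.2.2.1.trans h.2.2.1, fun j hj x hx =>
      (h.2.2.2 j (h'.2.2.1 hj) x (hx.trans_le h'.1)).trans (h'.2.2.2 j hj x hx)⟩

theorem le_def {q p : Cond X Θ} : q ≤ p ↔ p.top ≤ q.top ∧
    (∀ x < p.top, (x ∈ q.s ↔ x ∈ p.s) ∧ q.l x = p.l x) ∧
    p.supp ⊆ q.supp ∧ ∀ j ∈ p.supp, ∀ x < p.top, (x ∈ q.y j ↔ x ∈ p.y j) := Iff.rfl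

/-- restriction of a condition to a set of coordinates -/
def restr (p : Cond X Θ) (U : Set Θ) : Cond X Θ :=
  ⟨p.top, p.s, p.l, p.supp ∩ U, fun j => {x | x ∈ p.y j ∧ j ∈ U}⟩

/-- `γ` has cofinality `ω` -/
def CofOmega (γ : X) : Prop := ∃ f : ℕ → X, (∀ n, f n < γ) ∧ ∀ b < γ, ∃ n, b < f n

/-- `y` is unbounded in `γ` -/
def Unb (y : Set X) (γ : X) : Prop := ∀ b < γ, ∃ x ∈ y, b < x ∧ x < γ

/-- well-formed conditions -/
def WF (p : Cond X Θ) : Prop :=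
  #p.supp < #X ∧ (∀ x ∈ p.s, x < p.top ∧ CofOmega x ∧ (∀ z ∈ p.l x, z < x) ∧ Unb (p.l x) x) ∧
    (∀ j, ∀ x ∈ p.y j, x < p.top) ∧ (∀ j ∉ p.supp, p.y j = ∅) ∧ ∀ x ∉ p.s, p.l x = ∅

/-- `q` forces (over the set `L` of conditions) that the generic filter meets `Nδ` -/
def InF (L Nδ : Set (Cond X Θ)) (q : Cond X Θ) : Prop :=
  ∀ r ∈ L, r ≤ q → ∃ t ∈ L, t ≤ r ∧ ∃ b ∈ Nδ, t ≤ b

/-- `q` forces (over the set `L` of conditions) that the generic filter does not meet `Nδ` -/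
def OutF (L Nδ : Set (Cond X Θ)) (q : Cond X Θ) : Prop :=
  ∀ r ∈ L, r ≤ q → ∀ b ∈ Nδ, ¬ r ≤ b

/-- the requirement at `δ` -/
def Req (L Nδ : Set (Cond X Θ)) (r : Cond X Θ) (y l : Set X) (δ : X) : Prop :=
  (InF L Nδ r ∧ ∃ a < δ, ∀ x ∈ l, a < x → x < δ → x ∈ y) ∨
    (OutF L Nδ r ∧ ∃ a < δ, ∀ x ∈ l, a < x → x < δ → x ∉ y)

variable [LinearOrder Θ]

/-- the requirement on the coordinate `j` -/
def ReqAt (L : Set (Cond X Θ)) (N : Θ → X → Set (Cond X Θ)) (j : Θ) (p : Cond X Θ) : Prop :=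
  ∀ δ ∈ p.s, Unb (p.y j) δ → Req L (N j δ) (restr p (Set.Iio j)) (p.y j) (p.l δ) δ

variable [WellFoundedLT Θ]

/-- the legal conditions with support below `j`, by recursion on `j` -/
noncomputable def Lg (N : Θ → X → Set (Cond X Θ)) : Θ → Set (Cond X Θ) :=
  WellFounded.fix (wellFounded_lt (α := Θ)) fun j ih =>
    {p | WF p ∧ p.supp ⊆ Set.Iio j ∧ ∀ i, ∀ h : i < j, i ∈ p.supp → ReqAt (ih i h) N i p}

/-- the legal conditions -/
def Legal (N : Θ → X → Set (Cond X Θ)) (p : Cond X Θ) : Prop :=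
  WF p ∧ ∀ i ∈ p.supp, ReqAt (Lg N i) N i p

end

/-! ### Basic facts -/

section

variable {X Θ : Type} [LinearOrder X]

theorem restr_le (p : Cond X Θ) (U : Set Θ) : p ≤ restr p U := by
  refine ⟨le_rfl, fun _ _ => ⟨Iff.rfl, rfl⟩, Set.inter_subset_left, fun j hj x _ => ?_⟩
  exact ⟨fun h => ⟨h, hj.2⟩, fun h => h.1⟩

theorem restr_mono {p q : Cond X Θ} (h : q ≤ p) (U : Set Θ) : restr q U ≤ restr p U := by
  refine ⟨h.1, h.2.1, Set.inter_subset_inter_left _ h.2.2.1, fun j hj x hx => ?_⟩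
  exact and_congr_left fun _ => h.2.2.2 j hj.1 x hx

theorem restr_restr (p : Cond X Θ) (U V : Set Θ) : restr (restr p U) V = restr p (U ∩ V) := by
  ext x
  · rfl
  · rfl
  · rfl
  · simp only [restr, Set.mem_inter_iff]
    tauto
  · simp only [restr, Set.mem_inter_iff, Set.mem_setOf_eq]
    tauto

theorem wf_restr {p : Cond X Θ} (h : WF p) (U : Set Θ) : WF (restr p U) := by
  refine ⟨lt_of_le_of_lt (Cardinal.mk_le_mk_of_subset Set.inter_subset_left) h.1, h.2.1,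
    fun j x hx => h.2.2.1 j x hx.1, fun j hj => ?_, h.2.2.2.2⟩
  ext x
  simp only [restr, Set.mem_setOf_eq, Set.mem_empty_iff_false, iff_false, not_and]
  intro hx hU
  apply hj
  refine ⟨?_, hU⟩
  by_contra hj'
  rw [h.2.2.2.1 j hj'] at hx
  exact hx

theorem unb_congr {y y' : Set X} {γ : X} (h : ∀ x < γ, (x ∈ y' ↔ x ∈ y)) (hu : Unb y' γ) :
    Unb y γ := by
  intro b hb
  obtain ⟨x, hx, h1, h2⟩ := hu b hb
  exact ⟨x, (h x h2).1 hx, h1, h2⟩

theorem not_unb_empty {γ : X} (hc : CofOmega γ) {y : Set X} (hy : ∀ x < γ, x ∉ y) :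
    ¬ Unb y γ := by
  intro hu
  obtain ⟨f, hf, -⟩ := hc
  obtain ⟨x, hx, -, hxγ⟩ := hu (f 0) (hf 0)
  exact hy x hxγ hx

theorem InF.mono {L Nδ : Set (Cond X Θ)} {r r' : Cond X Θ} (h : InF L Nδ r) (hr : r' ≤ r) :
    InF L Nδ r' := fun q hq hqr => h q hq (hqr.trans hr)

theorem OutF.mono {L Nδ : Set (Cond X Θ)} {r r' : Cond X Θ} (h : OutF L Nδ r) (hr : r' ≤ r) :
    OutF L Nδ r' := fun q hq hqr => h q hq (hqr.trans hr)

theorem Req.mono {L Nδ : Set (Cond X Θ)} {r r' : Cond X Θ}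
    {y y' l l' : Set X} {δ : X} (h : Req L Nδ r y l δ) (hr : r' ≤ r) (hl : l' = l)
    (hy : ∀ x < δ, (x ∈ y' ↔ x ∈ y)) : Req L Nδ r' y' l' δ := by
  subst hl
  rcases h with ⟨h1, a, ha, h2⟩ | ⟨h1, a, ha, h2⟩
  · exact Or.inl ⟨h1.mono hr, a, ha, fun x hx hax hxδ => (hy x hxδ).2 (h2 x hx hax hxδ)⟩
  · exact Or.inr ⟨h1.mono hr, a, ha, fun x hx hax hxδ h3 => h2 x hx hax hxδ ((hy x hxδ).1 h3)⟩

variable [LinearOrder Θ] [WellFoundedLT Θ] {N : Θ → X → Set (Cond X Θ)}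

theorem lg_eq (j : Θ) : Lg N j = {p | WF p ∧ p.supp ⊆ Set.Iio j ∧
    ∀ i, i < j → i ∈ p.supp → ReqAt (Lg N i) N i p} := by
  unfold Lg
  rw [WellFounded.fix_eq]

theorem mem_lg {j : Θ} {p : Cond X Θ} : p ∈ Lg N j ↔ Legal N p ∧ p.supp ⊆ Set.Iio j := by
  rw [lg_eq]
  constructor
  · rintro ⟨h1, h2, h3⟩
    exact ⟨⟨h1, fun i hi => h3 i (h2 hi) hi⟩, h2⟩
  · rintro ⟨⟨h1, h3⟩, h2⟩
    exact ⟨h1, h2, fun i _ hi => h3 i hi⟩

/-- general criterion for legality at a coordinate inherited from a weaker condition -/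
theorem reqAt_of {L : Set (Cond X Θ)} {i : Θ} {p r : Cond X Θ} (h : ReqAt L N i p) (hr : r ≤ p)
    (h1 : ∀ γ ∈ r.s, Unb (r.y i) γ → γ ∈ p.s ∧ r.l γ = p.l γ ∧
      ∀ x < γ, (x ∈ r.y i ↔ x ∈ p.y i)) :
    ReqAt L N i r := by
  intro γ hγ hu
  obtain ⟨h3, h5, h4⟩ := h1 γ hγ hu
  exact Req.mono (h γ h3 (unb_congr h4 hu)) (restr_mono hr _) h5 h4

theorem legal_restr {p : Cond X Θ} (hp : Legal N p) {U : Set Θ} (hU : IsLowerSet U) :
    Legal N (restr p U) := by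
  refine ⟨wf_restr hp.1 U, fun i hi γ hγ hu => ?_⟩
  have hiU : i ∈ U := hi.2
  have hy : (restr p U).y i = p.y i := by
    ext x
    exact ⟨fun h => h.1, fun h => ⟨h, hiU⟩⟩
  have hr : restr (restr p U) (Set.Iio i) = restr p (Set.Iio i) := by
    rw [restr_restr]
    congr 1
    exact Set.inter_eq_right.2 fun j hj => hU (le_of_lt hj) hiU
  rw [hy] at hu ⊢
  rw [hr]
  exact hp.2 i hi.1 γ hγ hu

theorem restr_mem_lg {p : Cond X Θ} (hp : Legal N p) (j : Θ) : restr p (Set.Iio j) ∈ Lg N j :=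
  mem_lg.2 ⟨legal_restr hp (isLowerSet_Iio j), Set.inter_subset_right⟩

/-- raising the top -/
def raise (p : Cond X Θ) (t : X) : Cond X Θ := ⟨t, p.s, p.l, p.supp, p.y⟩

theorem raise_spec {p : Cond X Θ} (hp : Legal N p) {t : X} (ht : p.top ≤ t) :
    Legal N (raise p t) ∧ raise p t ≤ p := by
  have hle : raise p t ≤ p :=
    ⟨ht, fun _ _ => ⟨Iff.rfl, rfl⟩, subset_rfl, fun _ _ _ _ => Iff.rfl⟩
  refine ⟨⟨⟨hp.1.1, fun x hx => ⟨(hp.1.2.1 x hx).1.trans_le ht, (hp.1.2.1 x hx).2⟩,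
    fun j x hx => (hp.1.2.2.1 j x hx).trans_le ht, hp.1.2.2.2⟩, fun i hi => ?_⟩, hle⟩
  exact reqAt_of (hp.2 i hi) hle fun γ hγ _ => ⟨hγ, rfl, fun _ _ => Iff.rfl⟩

/-- adding coordinates and points above the top -/
def addW (p : Cond X Θ) (t : X) (V : Set Θ) (W : Θ → Set X) : Cond X Θ :=
  ⟨t, p.s, p.l, p.supp ∪ V, fun j => p.y j ∪ W j⟩

theorem addW_spec {p : Cond X Θ} (hp : Legal N p) {t : X} (ht : p.top ≤ t) {V : Set Θ}
    (hV : #(p.supp ∪ V : Set Θ) < #X)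
    {W : Θ → Set X} (hW : ∀ j, ∀ x ∈ W j, p.top ≤ x ∧ x < t ∧ j ∈ p.supp ∪ V) :
    Legal N (addW p t V W) ∧ addW p t V W ≤ p := by
  have hmem : ∀ i, ∀ x < p.top, x ∈ (addW p t V W).y i ↔ x ∈ p.y i := by
    intro i x hx
    constructor
    · rintro (h | h)
      · exact h
      · exact absurd hx (not_lt.2 (hW i x h).1)
    · exact fun h => Or.inl h
  have hle : addW p t V W ≤ p :=
    ⟨ht, fun _ _ => ⟨Iff.rfl, rfl⟩, Set.subset_union_left, fun j _ x hx => hmem j x hx⟩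
  refine ⟨⟨⟨hV, fun x hx => ⟨(hp.1.2.1 x hx).1.trans_le ht, (hp.1.2.1 x hx).2⟩, ?_, ?_,
    hp.1.2.2.2.2⟩, fun i hi => ?_⟩, hle⟩
  · rintro j x (hx | hx)
    · exact (hp.1.2.2.1 j x hx).trans_le ht
    · exact (hW j x hx).2.1
  · intro j hj
    ext x
    simp only [addW, Set.mem_union, Set.mem_empty_iff_false, iff_false, not_or]
    refine ⟨fun hx => ?_, fun hx => hj (hW j x hx).2.2⟩
    rw [hp.1.2.2.2.1 j fun h => hj (Or.inl h)] at hx
    exact hx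
  · by_cases hip : i ∈ p.supp
    · exact reqAt_of (hp.2 i hip) hle fun γ hγ _ =>
        ⟨hγ, rfl, fun x hx => hmem i x (hx.trans (hp.1.2.1 γ hγ).1)⟩
    · intro γ hγ hu
      exfalso
      refine not_unb_empty (hp.1.2.1 γ hγ).2.1 (fun x hx hx' => ?_) hu
      rw [hmem i x (hx.trans (hp.1.2.1 γ hγ).1), hp.1.2.2.2.1 i hip] at hx'
      exact hx'

open Classical in
/-- amalgamation: `r` on `U`, `p` outside -/
noncomputable def am (U : Set Θ) (r p : Cond X Θ) : Cond X Θ :=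
  ⟨r.top, r.s, r.l, r.supp ∪ p.supp, fun j => if j ∈ U then r.y j else p.y j⟩

omit [LinearOrder Θ] [WellFoundedLT Θ] in
theorem am_pos (U : Set Θ) (r p : Cond X Θ) {j : Θ} (h : j ∈ U) : (am U r p).y j = r.y j := by
  simp [am, h]

omit [LinearOrder Θ] [WellFoundedLT Θ] in
theorem am_neg (U : Set Θ) (r p : Cond X Θ) {j : Θ} (h : j ∉ U) : (am U r p).y j = p.y j := by
  simp [am, h]

theorem am_spec {U : Set Θ} (hU : IsLowerSet U) {r p : Cond X Θ} (hr : Legal N r)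
    (hp : Legal N p) {t : X} (ht : p.top < t) (htr : t ≤ r.top)
    (hs : ∀ x < t, (x ∈ r.s ↔ x ∈ p.s) ∧ r.l x = p.l x) (hinf : ℵ₀ ≤ #X)
    (hsU : ∀ j ∈ U, j ∈ p.supp → j ∈ r.supp ∧ ∀ x < p.top, (x ∈ r.y j ↔ x ∈ p.y j)) :
    Legal N (am U r p) ∧ am U r p ≤ p ∧ restr (am U r p) U ≤ restr r U := by
  have hle : am U r p ≤ p := by
    refine ⟨(ht.le.trans htr), fun x hx => hs x (hx.trans ht), Set.subset_union_right,
      fun j hj x hx => ?_⟩
    by_cases hjU : j ∈ U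
    · rw [am_pos U r p hjU]
      exact (hsU j hjU hj).2 x hx
    · rw [am_neg U r p hjU]
  refine ⟨⟨⟨?_, hr.1.2.1, ?_, ?_, hr.1.2.2.2.2⟩, fun i hi => ?_⟩, hle, ?_⟩
  · exact lt_of_le_of_lt (Cardinal.mk_union_le _ _) (Cardinal.add_lt_of_lt hinf hr.1.1 hp.1.1)
  · intro j x hx
    by_cases hjU : j ∈ U
    · rw [am_pos U r p hjU] at hx
      exact hr.1.2.2.1 j x hx
    · rw [am_neg U r p hjU] at hx
      exact (hp.1.2.2.1 j x hx).trans (ht.trans_le htr)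
  · intro j hj
    by_cases hjU : j ∈ U
    · rw [am_pos U r p hjU]
      exact hr.1.2.2.2.1 j fun h => hj (Or.inl h)
    · rw [am_neg U r p hjU]
      exact hp.1.2.2.2.1 j fun h => hj (Or.inr h)
  · by_cases hiU : i ∈ U
    · have hir : i ∈ r.supp := by
        rcases hi with h | h
        · exact h
        · exact (hsU i hiU h).1
      intro γ hγ hu
      rw [am_pos U r p hiU] at hu ⊢
      have h1 : restr (am U r p) (Set.Iio i) ≤ restr r (Set.Iio i) := by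
        refine ⟨le_rfl, fun _ _ => ⟨Iff.rfl, rfl⟩, fun j hj => ⟨Or.inl hj.1, hj.2⟩,
          fun j hj x _ => ?_⟩
        have hjU : j ∈ U := hU (le_of_lt hj.2) hiU
        change (x ∈ (am U r p).y j ∧ j ∈ Set.Iio i) ↔ (x ∈ r.y j ∧ j ∈ Set.Iio i)
        rw [am_pos U r p hjU]
      exact Req.mono (hr.2 i hir γ hγ hu) h1 rfl fun _ _ => Iff.rfl
    · by_cases hip : i ∈ p.supp
      · refine reqAt_of (hp.2 i hip) hle fun γ hγ hu => ?_
        rw [am_neg U r p hiU] at hu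
        have hγt : γ ≤ p.top := by
          by_contra hcon
          obtain ⟨x, hx, hx1, -⟩ := hu p.top (not_le.1 hcon)
          exact absurd (hp.1.2.2.1 i x hx) (not_lt.2 hx1.le)
        exact ⟨(hs γ (hγt.trans_lt ht)).1.1 hγ, (hs γ (hγt.trans_lt ht)).2,
          fun x _ => by rw [am_neg U r p hiU]⟩
      · intro γ hγ hu
        exfalso
        rw [am_neg U r p hiU, hp.1.2.2.2.1 i hip] at hu
        exact not_unb_empty (hr.1.2.1 γ hγ).2.1 (fun x _ => Set.notMem_empty x) hu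
  · refine ⟨le_rfl, fun _ _ => ⟨Iff.rfl, rfl⟩, fun j hj => ⟨Or.inl hj.1, hj.2⟩,
      fun j hj x _ => ?_⟩
    change (x ∈ (am U r p).y j ∧ j ∈ U) ↔ (x ∈ r.y j ∧ j ∈ U)
    rw [am_pos U r p hj.2]

end

end Pool.Agent.K7.H35.U
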