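import Mathlib
import Pool.Agent.K7.H35.U.Sys
set_option autoImplicit false
set_option linter.unusedSectionVars false

/-!
# Choosing a branch
-/

namespace Pool.Agent.K7.H35.U

open Cardinal

section

variable {X Θ : Type} [LinearOrder X] [WellFoundedLT X] [LinearOrder Θ] [WellFoundedLT Θ]

/-- the data at the limit -/
structure Lim (N : Θ → X → Set (Cond X Θ)) where
  /-- the limit point -/
  δ : X
  /-- the set of points -/
  s : Set X
  /-- the ladders -/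
  l : X → Set X
  /-- the support -/
  V : Set Θ
  /-- the coordinates -/
  Y : (Θ → Bool) → Θ → Set X
  /-- a point above -/
  t : X
  /-- the new ladder -/
  lad : Set X
  lt : δ < t
  legal : ∀ τ, Legal N ⟨δ, s, l, V, Y τ⟩
  coh : ∀ τ τ' j, Agr V τ τ' j → Y τ j = Y τ' j
  split : ∀ τ, ∀ j ∈ V, ∃ a < δ, ∀ x ∈ lad, a < x → (x ∈ Y τ j ↔ τ j = true)
  cof : CofOmega δ
  ladlt : ∀ x ∈ lad, x < δ
  ladunb : Unb lad δ

variable {N : Θ → X → Set (Cond X Θ)}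

/-- the raw condition with `δ` put into `s` -/
def Lim.R (A : Lim N) (τ : Θ → Bool) (W : Set Θ) : Cond X Θ :=
  ⟨A.t, insert A.δ A.s, fun z => {x | (z = A.δ ∧ x ∈ A.lad) ∨ (z ≠ A.δ ∧ x ∈ A.l z)}, W,
    fun j => {x | x ∈ A.Y τ j ∧ j ∈ W}⟩

theorem Lim.R_l (A : Lim N) (τ : Θ → Bool) (W : Set Θ) : (A.R τ W).l A.δ = A.lad := by
  ext x
  simp [Lim.R]

theorem Lim.R_l_ne (A : Lim N) (τ : Θ → Bool) (W : Set Θ) {z : X} (h : z ≠ A.δ) :
    (A.R τ W).l z = A.l z := by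
  ext x
  simp [Lim.R, h]

/-- partial solutions -/
structure St (A : Lim N) where
  /-- the set of coordinates done -/
  W : Set Θ
  /-- the branch -/
  τ : Θ → Bool
  /-- the condition -/
  q : Cond X Θ
  sub : W ⊆ A.V
  low : ∀ j ∈ W, ∀ i ∈ A.V, i ≤ j → i ∈ W
  leg : Legal N q
  le : q ≤ A.R τ W
  sup : ∀ j ∈ A.V, j ∉ W → q.supp ⊆ Set.Iio j

instance instPreorderSt (A : Lim N) : Preorder (St A) where
  le a b := a = b ∨ (a.W ⊂ b.W ∧ (∀ j ∈ a.W, a.τ j = b.τ j) ∧ b.q ≤ a.q)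
  le_refl a := Or.inl rfl
  le_trans a b c h h' := by
    rcases h with rfl | h
    · exact h'
    · rcases h' with rfl | h'
      · exact Or.inr h
      · exact Or.inr ⟨h.1.trans h'.1, fun j hj => (h.2.1 j hj).trans (h'.2.1 j (h.1.1 hj)),
          h'.2.2.trans h.2.2⟩

theorem st_le {A : Lim N} {a b : St A} : a ≤ b ↔
    a = b ∨ (a.W ⊂ b.W ∧ (∀ j ∈ a.W, a.τ j = b.τ j) ∧ b.q ≤ a.q) := Iff.rfl

theorem st_weak {A : Lim N} {a b : St A} (h : a ≤ b) :
    a.W ⊆ b.W ∧ (∀ j ∈ a.W, a.τ j = b.τ j) ∧ b.q ≤ a.q := by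
  rcases h with rfl | h
  · exact ⟨subset_rfl, fun _ _ => rfl, le_rfl⟩
  · exact ⟨h.1.1, h.2.1, h.2.2⟩

theorem st_start (A : Lim N) (hpos : 0 < #X) : Nonempty (St A) := by
  refine ⟨⟨∅, fun _ => false, ⟨A.t, insert A.δ A.s, (A.R (fun _ => false) ∅).l, ∅, fun _ => ∅⟩,
    Set.empty_subset _,
    fun j hj => hj.elim, ⟨⟨?_, ?_, fun _ x hx => hx.elim, fun _ _ => rfl, ?_⟩,
    fun i hi => hi.elim⟩, ?_, fun _ _ _ => Set.empty_subset _⟩⟩
  · rw [Cardinal.mk_eq_zero]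
    exact hpos
  · rintro x (rfl | hx)
    · refine ⟨A.lt, A.cof, ?_, ?_⟩
      · change ∀ z ∈ (A.R (fun _ => false) ∅).l A.δ, z < A.δ
        rw [A.R_l]
        exact A.ladlt
      · change Unb ((A.R (fun _ => false) ∅).l A.δ) A.δ
        rw [A.R_l]
        exact A.ladunb
    · have h1 := (A.legal fun _ => false).1.2.1 x hx
      have h2 : x ≠ A.δ := ne_of_lt h1.1
      refine ⟨h1.1.trans A.lt, h1.2.1, ?_, ?_⟩
      · change ∀ z ∈ (A.R (fun _ => false) ∅).l x, z < x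
        rw [A.R_l_ne _ _ h2]
        exact h1.2.2.1
      · change Unb ((A.R (fun _ => false) ∅).l x) x
        rw [A.R_l_ne _ _ h2]
        exact h1.2.2.2
  · intro x hx
    have h2 : x ≠ A.δ := fun h => hx (Or.inl h)
    have h3 : x ∉ A.s := fun h => hx (Or.inr h)
    change (A.R (fun _ => false) ∅).l x = ∅
    rw [A.R_l_ne _ _ h2]
    exact (A.legal fun _ => false).1.2.2.2.2 x h3
  · exact ⟨le_rfl, fun _ _ => ⟨Iff.rfl, rfl⟩, subset_rfl, fun j hj => hj.elim⟩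

theorem st_chain [Nonempty X] (hX : Bdd X) (A : Lim N) (c : Set (St A)) (hc : IsChain (· ≤ ·) c)
    (hne : c.Nonempty) : BddAbove c := by
  classical
  by_cases hall : ∃ a ∈ c, a.W = A.V
  · obtain ⟨a, ha, haV⟩ := hall
    refine ⟨a, fun b hb => ?_⟩
    rcases hc.total hb ha with h | h
    · exact h
    · rcases h with rfl | h
      · exact le_rfl
      · exfalso
        apply h.1.2
        rw [haV]
        exact b.sub
  push Not at hall
  have hinf : ℵ₀ ≤ #X := hX.reg.aleph0_le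
  -- injection of `c` to `V`
  have hmin : ∀ a : c, (A.V \ a.1.W).Nonempty := by
    intro a
    by_contra h
    rw [Set.not_nonempty_iff_eq_empty, Set.sdiff_eq_empty] at h
    exact hall a.1 a.2 (Set.Subset.antisymm a.1.sub h)
  let m : c → A.V := fun a => ⟨(wellFounded_lt (α := Θ)).min _ (hmin a),
    ((wellFounded_lt (α := Θ)).min_mem _ (hmin a)).1⟩
  have hm1 : ∀ a : c, (m a).1 ∉ a.1.W := fun a =>
    ((wellFounded_lt (α := Θ)).min_mem _ (hmin a)).2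
  have hm2 : ∀ a : c, ∀ i ∈ A.V, i < (m a).1 → i ∈ a.1.W := by
    intro a i hi hlt
    by_contra hia
    exact (wellFounded_lt (α := Θ)).not_lt_min _ (⟨hi, hia⟩ : i ∈ A.V \ a.1.W) hlt
  have hWeq : ∀ a : c, a.1.W = {i | i ∈ A.V ∧ i < (m a).1} := by
    intro a
    ext i
    constructor
    · intro hi
      refine ⟨a.1.sub hi, ?_⟩
      by_contra hcon
      exact hm1 a (a.1.low i hi _ (m a).2 (not_lt.1 hcon))
    · rintro ⟨h1, h2⟩
      exact hm2 a i h1 h2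
  have hinj : Function.Injective m := by
    intro a b hab
    have hW : a.1.W = b.1.W := by rw [hWeq a, hWeq b, hab]
    apply Subtype.ext
    rcases hc.total a.2 b.2 with h | h
    · rcases h with h | h
      · exact h
      · exact absurd hW h.1.ne
    · rcases h with h | h
      · exact h.symm
      · exact absurd hW.symm h.1.ne
  have hcard : #c < #X :=
    lt_of_le_of_lt (Cardinal.mk_le_of_injective hinj) (A.legal fun _ => false).1.1
  -- the union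
  let D : Set (Cond X Θ) := (fun a : St A => a.q) '' c
  have hD : #D < #X := lt_of_le_of_lt Cardinal.mk_image_le hcard
  have hdir : Dir D := by
    rintro _ ⟨a, ha, rfl⟩ _ ⟨b, hb, rfl⟩
    rcases hc.total ha hb with h | h
    · exact ⟨_, ⟨b, hb, rfl⟩, (st_weak h).2.2, le_rfl⟩
    · exact ⟨_, ⟨a, ha, rfl⟩, le_rfl, (st_weak h).2.2⟩
  have hl : ∀ d ∈ D, Legal N d := by
    rintro _ ⟨a, ha, rfl⟩
    exact a.leg
  have hle : ∀ a ∈ c, uni D ≤ a.q := fun a ha =>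
    uni_le hX hD hdir (fun d hd => (hl d hd).1) ⟨a, ha, rfl⟩
  let W : Set Θ := {j | ∃ a ∈ c, j ∈ a.W}
  let τ : Θ → Bool := fun j => if h : ∃ a ∈ c, j ∈ a.W then h.choose.τ j else false
  have hτ : ∀ a ∈ c, ∀ j ∈ a.W, a.τ j = τ j := by
    intro a ha j hj
    have h : ∃ a ∈ c, j ∈ a.W := ⟨a, ha, hj⟩
    have h1 : τ j = h.choose.τ j := dif_pos h
    rw [h1]
    rcases hc.total ha h.choose_spec.1 with h2 | h2
    · exact (st_weak h2).2.1 j hj
    · exact ((st_weak h2).2.1 j h.choose_spec.2).symm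
  have hlow : ∀ j ∈ W, ∀ i ∈ A.V, i ≤ j → i ∈ W := by
    rintro j ⟨a, ha, hj⟩ i hi hij
    exact ⟨a, ha, a.low j hj i hi hij⟩
  obtain ⟨a0, ha0⟩ := hne
  have hR : uni D ≤ A.R τ W := by
    refine ⟨(a0.le.1.trans (hle a0 ha0).1), fun x hx => ?_, ?_, ?_⟩
    · have e1 := (hle a0 ha0).2.1 x (lt_of_lt_of_le hx a0.le.1)
      have e2 := a0.le.2.1 x hx
      exact ⟨e1.1.trans e2.1, e1.2.trans e2.2⟩
    · rintro j ⟨a, ha, hj⟩
      exact (hle a ha).2.2.1 (a.le.2.2.1 hj)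
    · rintro j ⟨a, ha, hj⟩ x hx
      have h1 := (hle a ha).2.2.2 j (a.le.2.2.1 hj) x (lt_of_lt_of_le hx a.le.1)
      have h2 := a.le.2.2.2 j hj x hx
      have h3 : A.Y a.τ j = A.Y τ j := A.coh _ _ j fun i hi hiV => hτ a ha i (a.low j hj i hiV hi)
      refine (h1.trans h2).trans ?_
      change (x ∈ A.Y a.τ j ∧ j ∈ a.W) ↔ (x ∈ A.Y τ j ∧ j ∈ W)
      rw [h3]
      exact ⟨fun h => ⟨h.1, a, ha, hj⟩, fun h => ⟨h.1, hj⟩⟩
  have hub : ∀ b ∈ c, b.W ⊂ W ∨ ∀ a ∈ c, a ≤ b := by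
    intro b hb
    by_cases h : ∀ a ∈ c, a ≤ b
    · exact Or.inr h
    · left
      push Not at h
      obtain ⟨a, ha, hab⟩ := h
      rcases hc.total ha hb with h1 | h1
      · exact absurd h1 hab
      · rcases h1 with h1 | h1
        · exact absurd (le_of_eq h1.symm) hab
        · exact lt_of_lt_of_le h1.1 fun j hj => ⟨a, ha, hj⟩
  by_cases hmax : ∃ b ∈ c, ∀ a ∈ c, a ≤ b
  · obtain ⟨b, -, hb⟩ := hmax
    exact ⟨b, hb⟩
  refine ⟨⟨W, τ, uni D, ?_, hlow, uni_legal hX hD hdir hl, hR, ?_⟩, fun b hb => ?_⟩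
  · rintro j ⟨a, ha, hj⟩
    exact a.sub hj
  · rintro j hj hjW i ⟨d, ⟨a, ha, rfl⟩, hi⟩
    exact a.sup j hj (fun h => hjW ⟨a, ha, h⟩) hi
  · rcases hub b hb with h | h
    · exact Or.inr ⟨h, fun j hj => hτ b hb j hj, hle b hb⟩
    · exact absurd ⟨b, hb, h⟩ hmax

theorem st_step (hX : Bdd X) (A : Lim N) (a : St A) (h : a.W ≠ A.V) : ∃ b : St A, a ≤ b ∧ a.W ⊂ b.W := by
  classical
  have hinf : ℵ₀ ≤ #X := hX.reg.aleph0_le
  have hne : (A.V \ a.W).Nonempty := by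
    by_contra h'
    rw [Set.not_nonempty_iff_eq_empty, Set.sdiff_eq_empty] at h'
    exact h (Set.Subset.antisymm a.sub h')
  let ξ : Θ := (wellFounded_lt (α := Θ)).min _ hne
  have hξ : ξ ∈ A.V \ a.W := (wellFounded_lt (α := Θ)).min_mem _ hne
  have hξ2 : ∀ i ∈ A.V, i < ξ → i ∈ a.W := by
    intro i hi hlt
    by_contra hia
    exact (wellFounded_lt (α := Θ)).not_lt_min _ (⟨hi, hia⟩ : i ∈ A.V \ a.W) hlt
  have hWξ : ∀ i ∈ a.W, i < ξ := by
    intro i hi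
    by_contra hcon
    exact hξ.2 (a.low i hi ξ hξ.1 (not_lt.1 hcon))
  have hq0 : a.q ∈ Lg N ξ := mem_lg.2 ⟨a.leg, a.sup ξ hξ.1 hξ.2⟩
  let tb : Bool → Θ → Bool := fun b => Function.update a.τ ξ b
  have key : ∃ b : Bool, ∃ q1 ∈ Lg N ξ, q1 ≤ a.q ∧
      Req (Lg N ξ) (N ξ A.δ) q1 (A.Y (tb b) ξ) A.lad A.δ := by
    have htb : ∀ b, tb b ξ = b := fun b => by simp [tb]
    by_cases hc : ∃ q1 ∈ Lg N ξ, q1 ≤ a.q ∧ OutF (Lg N ξ) (N ξ A.δ) q1
    · obtain ⟨q1, h1, h2, h3⟩ := hc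
      obtain ⟨c, hc1, hc2⟩ := A.split (tb false) ξ hξ.1
      refine ⟨false, q1, h1, h2, Or.inr ⟨h3, c, hc1, fun x hx hcx _ hmem => ?_⟩⟩
      have h4 := (hc2 x hx hcx).1 hmem
      rw [htb] at h4
      exact absurd h4 (by simp)
    · push Not at hc
      obtain ⟨c, hc1, hc2⟩ := A.split (tb true) ξ hξ.1
      refine ⟨true, a.q, hq0, le_rfl, Or.inl ⟨fun r hr hra => ?_, c, hc1, fun x hx hcx _ => ?_⟩⟩
      · have h5 := hc r hr hra
        unfold OutF at h5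
        push Not at h5
        obtain ⟨t, ht, htr, b, hb, htb'⟩ := h5
        exact ⟨t, ht, htr, b, hb, htb'⟩
      · exact (hc2 x hx hcx).2 (htb true)
  obtain ⟨b, q1, hq1, hq1le, hreq⟩ := key
  have hq1L := mem_lg.1 hq1
  have hτ : ∀ j ∈ a.W, a.τ j = tb b j := by
    intro j hj
    have : j ≠ ξ := (hWξ j hj).ne
    simp [tb, Function.update, this]
  have hYeq : ∀ j ∈ a.W, A.Y a.τ j = A.Y (tb b) j := fun j hj =>
    A.coh _ _ j fun i hi hiV => hτ i (a.low j hj i hiV hi)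
  have hq1R := hq1le.trans a.le
  let q' : Cond X Θ := ⟨q1.top, q1.s, q1.l, insert ξ q1.supp, fun j => if j = ξ then A.Y (tb b) ξ else q1.y j⟩
  have ypos : q'.y ξ = A.Y (tb b) ξ := if_pos rfl
  have yneg : ∀ j, j ≠ ξ → q'.y j = q1.y j := fun j hj => if_neg hj
  have hq'q1 : q' ≤ q1 := by
    refine ⟨le_rfl, fun _ _ => ⟨Iff.rfl, rfl⟩, fun j hj => Or.inr hj, fun j hj x _ => ?_⟩
    rw [yneg j (ne_of_lt (hq1L.2 hj))]
  have hYsub : ∀ x ∈ A.Y (tb b) ξ, x < A.δ := fun x hx => (A.legal (tb b)).1.2.2.1 ξ x hx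
  have htop : A.t ≤ q1.top := hq1R.1
  have hleg : Legal N q' := by
    refine ⟨⟨?_, hq1L.1.1.2.1, ?_, ?_, hq1L.1.1.2.2.2.2⟩, ?_⟩
    · refine lt_of_le_of_lt Cardinal.mk_insert_le ?_
      exact Cardinal.add_lt_of_lt hinf hq1L.1.1.1 (lt_of_lt_of_le Cardinal.one_lt_aleph0 hinf)
    · intro j x hx
      by_cases hj : j = ξ
      · subst hj
        rw [ypos] at hx
        exact (hYsub x hx).trans (A.lt.trans_le htop)
      · rw [yneg j hj] at hx
        exact hq1L.1.1.2.2.1 j x hx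
    · intro j hj
      have hj1 : j ≠ ξ := fun h => hj (Or.inl h)
      rw [yneg j hj1]
      exact hq1L.1.1.2.2.2.1 j fun h => hj (Or.inr h)
    · intro i hi γ hγ hu
      by_cases hiξ : i = ξ
      · subst hiξ
        rw [ypos] at hu ⊢
        have hγδ : γ ≤ A.δ := by
          by_contra hcon
          obtain ⟨x, hx, hx1, -⟩ := hu A.δ (not_le.1 hcon)
          exact absurd (hYsub x hx) (not_lt.2 hx1.le)
        rcases eq_or_lt_of_le hγδ with rfl | hlt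
        · refine Req.mono hreq ?_ ?_ fun _ _ => Iff.rfl
          · refine ⟨le_rfl, fun _ _ => ⟨Iff.rfl, rfl⟩, fun j hj => ⟨Or.inr hj, hq1L.2 hj⟩,
              fun j hj x _ => ?_⟩
            change (x ∈ q'.y j ∧ j ∈ Set.Iio _) ↔ _
            rw [yneg j (ne_of_lt (hq1L.2 hj))]
            exact ⟨fun h => h.1, fun h => ⟨h, hq1L.2 hj⟩⟩
          · have h6 := (hq1R.2.1 A.δ A.lt).2
            rw [A.R_l] at h6
            exact h6
        · have hγs : γ ∈ A.s := by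
            have h1 : γ ∈ insert A.δ A.s := (hq1R.2.1 γ (hlt.trans A.lt)).1.1 hγ
            rcases h1 with h1 | h1
            · exact absurd h1 hlt.ne
            · exact h1
          have hle' : q1.l γ = A.l γ := by
            have h6 := (hq1R.2.1 γ (hlt.trans A.lt)).2
            rw [A.R_l_ne _ _ hlt.ne] at h6
            exact h6
          refine Req.mono ((A.legal (tb b)).2 ξ hξ.1 γ hγs hu) ?_ hle' fun _ _ => Iff.rfl
          refine ⟨A.lt.le.trans htop, fun x hx => ⟨?_, ?_⟩, ?_, ?_⟩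
          · have h1 : x ∈ q1.s ↔ x ∈ insert A.δ A.s := (hq1R.2.1 x (lt_trans hx A.lt)).1
            change x ∈ q1.s ↔ x ∈ A.s
            rw [h1]
            exact ⟨fun h => h.elim (fun h => absurd h (ne_of_lt hx)) id, Or.inr⟩
          · have h6 := (hq1R.2.1 x (lt_trans hx A.lt)).2
            rw [A.R_l_ne _ _ (ne_of_lt hx)] at h6
            exact h6
          · rintro j ⟨hj, hjξ⟩
            exact ⟨Or.inr (hq1R.2.2.1 (hξ2 j hj hjξ)), hjξ⟩
          · rintro j ⟨hj, hjξ⟩ x hx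
            have hjW := hξ2 j hj hjξ
            change (x ∈ q'.y j ∧ j ∈ Set.Iio ξ) ↔ (x ∈ A.Y (tb b) j ∧ j ∈ Set.Iio ξ)
            rw [yneg j (ne_of_lt hjξ), ← hYeq j hjW]
            have h2 : x ∈ q1.y j ↔ (x ∈ A.Y a.τ j ∧ j ∈ a.W) :=
              hq1R.2.2.2 j hjW x (lt_trans hx A.lt)
            rw [h2]
            exact ⟨fun h => ⟨h.1.1, hjξ⟩, fun h => ⟨⟨h.1, hjW⟩, hjξ⟩⟩
      · have hi1 : i ∈ q1.supp := by
          rcases hi with h | h
          · exact absurd h hiξ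
          · exact h
        rw [yneg i hiξ] at hu ⊢
        exact Req.mono (hq1L.1.2 i hi1 γ hγ hu) (restr_mono hq'q1 _) rfl fun _ _ => Iff.rfl
  refine ⟨⟨insert ξ a.W, tb b, q', ?_, ?_, hleg, ?_, ?_⟩, Or.inr ⟨?_, hτ, hq'q1.trans hq1le⟩, ?_⟩
  · rintro j (rfl | hj)
    · exact hξ.1
    · exact a.sub hj
  · rintro j (rfl | hj) i hi hij
    · rcases eq_or_lt_of_le hij with h1 | h1
      · exact Or.inl h1
      · exact Or.inr (hξ2 i hi h1)
    · exact Or.inr (a.low j hj i hi hij)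
  · refine ⟨htop, hq1R.2.1, ?_, ?_⟩
    · rintro j (rfl | hj)
      · exact Or.inl rfl
      · exact Or.inr (hq1R.2.2.1 hj)
    · rintro j hj x hx
      change x ∈ q'.y j ↔ (x ∈ A.Y (tb b) j ∧ j ∈ insert ξ a.W)
      rcases hj with rfl | hj
      · rw [ypos]
        exact ⟨fun h => ⟨h, Or.inl rfl⟩, fun h => h.1⟩
      · rw [yneg j (ne_of_lt (hWξ j hj)), ← hYeq j hj]
        have h2 : x ∈ q1.y j ↔ (x ∈ A.Y a.τ j ∧ j ∈ a.W) := hq1R.2.2.2 j hj x hx
        rw [h2]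
        exact ⟨fun h => ⟨h.1, Or.inr hj⟩, fun h => ⟨h.1, hj⟩⟩
  · intro j hj hjW i hi
    have h1 : ξ < j := by
      by_contra hcon
      rcases eq_or_lt_of_le (not_lt.1 hcon) with h2 | h2
      · exact hjW (Or.inl h2)
      · exact hjW (Or.inr (hξ2 j hj h2))
    rcases hi with rfl | hi
    · exact h1
    · exact lt_trans (hq1L.2 hi) h1
  · exact Set.ssubset_insert hξ.2
  · exact Set.ssubset_insert hξ.2

/-- a branch -/
theorem exists_branch [Nonempty X] (hX : Bdd X) (A : Lim N) :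
    ∃ τ q, Legal N q ∧ A.δ ∈ q.s ∧ A.δ < q.top ∧ q ≤ ⟨A.δ, A.s, A.l, A.V, A.Y τ⟩ := by
  have hinf : ℵ₀ ≤ #X := hX.reg.aleph0_le
  have := st_start A (Cardinal.aleph0_pos.trans_le hinf)
  obtain ⟨m, hm⟩ := zorn_le_nonempty (α := St A) fun c hc hne => st_chain hX A c hc hne
  have hW : m.W = A.V := by
    by_contra h
    obtain ⟨b, h1, h2⟩ := st_step hX A m h
    exact absurd ((st_weak (hm h1)).1) h2.2
  refine ⟨m.τ, m.q, m.leg, ?_, A.lt.trans_le m.le.1, ?_⟩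
  · exact (m.le.2.1 A.δ A.lt).1.2 (Or.inl rfl)
  · refine m.le.trans ⟨A.lt.le, fun x hx => ⟨?_, A.R_l_ne _ _ (ne_of_lt hx)⟩, ?_, fun j hj x _ => ?_⟩
    · exact ⟨fun h => h.elim (fun h => absurd h (ne_of_lt hx)) id, Or.inr⟩
    · change A.V ⊆ m.W
      rw [hW]
    · change (x ∈ A.Y m.τ j ∧ j ∈ m.W) ↔ x ∈ A.Y m.τ j
      rw [hW]
      exact ⟨fun h => h.1, fun h => ⟨h, hj⟩⟩

end

end Pool.Agent.K7.H35.U
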