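import Mathlib
import Pool.Agent.K7.H35.U.Sys
import Pool.Agent.Helper539.LadClos
set_option autoImplicit false
set_option linter.unusedSectionVars false

/-!
# The chain condition
-/

namespace Pool.Agent.K7.H35.U

open Cardinal Pool.Agent.Helper539.LadClos

variable {X Θ : Type} [LinearOrder X] [LinearOrder Θ] [WellFoundedLT Θ]
  {N : Θ → X → Set (Cond X Θ)}

/-- a common extension of conditions which agree on the common part -/
def unionC (p q : Cond X Θ) : Cond X Θ :=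
  ⟨p.top, p.s, p.l, p.supp ∪ q.supp, fun j => p.y j ∪ q.y j⟩

theorem union_spec (hinf : ℵ₀ ≤ #X) {p q : Cond X Θ} (hp : Legal N p)
    (hq : Legal N q) (ht : p.top = q.top) (hs : p.s = q.s) (hl : p.l = q.l)
    (hy : ∀ j ∈ p.supp, j ∈ q.supp → p.y j = q.y j) :
    Legal N (unionC p q) ∧ unionC p q ≤ p ∧ unionC p q ≤ q := by
  have e1 : ∀ j ∈ p.supp, p.y j ∪ q.y j = p.y j := by
    intro j hj
    by_cases hjq : j ∈ q.supp
    · rw [hy j hj hjq, Set.union_self]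
    · rw [hq.1.2.2.2.1 j hjq, Set.union_empty]
  have e2 : ∀ j ∈ q.supp, p.y j ∪ q.y j = q.y j := by
    intro j hj
    by_cases hjp : j ∈ p.supp
    · rw [hy j hjp hj, Set.union_self]
    · rw [hp.1.2.2.2.1 j hjp, Set.empty_union]
  have l1 : unionC p q ≤ p := by
    refine ⟨le_rfl, fun _ _ => ⟨Iff.rfl, rfl⟩, Set.subset_union_left, fun j hj x _ => ?_⟩
    change x ∈ p.y j ∪ q.y j ↔ x ∈ p.y j
    rw [e1 j hj]
  have l2 : unionC p q ≤ q := by
    refine ⟨ht.symm.le, fun x _ => ⟨?_, ?_⟩, Set.subset_union_right, fun j hj x _ => ?_⟩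
    · change x ∈ p.s ↔ x ∈ q.s
      rw [hs]
    · change p.l x = q.l x
      rw [hl]
    · change x ∈ p.y j ∪ q.y j ↔ x ∈ q.y j
      rw [e2 j hj]
  refine ⟨⟨⟨?_, hp.1.2.1, ?_, ?_, hp.1.2.2.2.2⟩, ?_⟩, l1, l2⟩
  · exact lt_of_le_of_lt (Cardinal.mk_union_le _ _) (Cardinal.add_lt_of_lt hinf hp.1.1 hq.1.1)
  · rintro j x (hx | hx)
    · exact hp.1.2.2.1 j x hx
    · exact (hq.1.2.2.1 j x hx).trans_eq ht.symm
  · intro j hj
    change p.y j ∪ q.y j = ∅
    rw [hp.1.2.2.2.1 j fun h => hj (Or.inl h), hq.1.2.2.2.1 j fun h => hj (Or.inr h), Set.union_empty]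
  · intro i hi
    rcases hi with hi | hi
    · refine reqAt_of (hp.2 i hi) l1 fun γ hγ _ => ⟨hγ, rfl, fun x _ => ?_⟩
      change x ∈ p.y i ∪ q.y i ↔ _
      rw [e1 i hi]
    · refine reqAt_of (hq.2 i hi) l2 fun γ hγ _ => ⟨?_, ?_, fun x _ => ?_⟩
      · rw [← hs]
        exact hγ
      · change p.l γ = q.l γ
        rw [hl]
      · change x ∈ p.y i ∪ q.y i ↔ _
        rw [e2 i hi]

open Classical in
/-- an enumeration of a set by `X` -/
noncomputable def en (X : Type) {Θ : Type} (θ0 : Θ) (S : Set Θ) : X → Θ :=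
  if h : Nonempty (S ↪ X) then Function.extend (fun s : S => h.some s) (fun s => s.1) (fun _ => θ0)
  else fun _ => θ0

theorem en_mem (θ0 : Θ) (S : Set Θ) (h : Nonempty (S ↪ X)) (j : Θ) (hj : j ∈ S) :
    ∃ l, en X θ0 S l = j := by
  refine ⟨h.some ⟨j, hj⟩, ?_⟩
  unfold en
  rw [dif_pos h]
  have hinj : Function.Injective (fun s : S => h.some s) := h.some.injective
  exact hinj.extend_apply (fun s : S => s.1) (fun _ => θ0) ⟨j, hj⟩

/-- the relation searched for -/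
def smallP {A' : Type} (Z : A' → Set (Cond X Θ)) (d : A' × X × Set X × (X → Set X) × (X → Set X) × Set X)
    (c : X → Θ) (z : Cond X Θ) : Prop :=
  z ∈ Z d.1 ∧ z.top = d.2.1 ∧ z.s = d.2.2.1 ∧ z.l = d.2.2.2.1 ∧
    ∀ l ∈ d.2.2.2.2.2, c l ∈ z.supp ∧ z.y (c l) = d.2.2.2.2.1 l

open Classical in
/-- the operations -/
noncomputable def smallF {A' : Type} (Z : A' → Set (Cond X Θ)) (θ0 : Θ)
    (d : A' × X × Set X × (X → Set X) × (X → Set X) × Set X) (c : X → Θ) : X → Θ :=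
  if h : ∃ z, smallP Z d c z then en X θ0 (Classical.choose h).supp else fun _ => θ0

theorem small_card {M A' : Type} [Infinite X]
    (hM : #M ^ #X = #M) (hM2 : 2 ≤ #M) (hA : #A' ≤ #M) :
    #(A' × X × Set X × (X → Set X) × (X → Set X) × Set X) ≤ #M := by
  have h1 : (2 : Cardinal) ^ #X ≤ #M := by
    calc (2 : Cardinal) ^ #X ≤ #M ^ #X := Cardinal.power_le_power_right hM2
      _ = #M := hM
  have hX : #X ≤ #M := (Cardinal.cantor _).le.trans h1
  have hinf : ℵ₀ ≤ #M := (Cardinal.aleph0_le_mk X).trans hX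
  have h3 : #(Set X) ≤ #M := by rw [Cardinal.mk_set]; exact h1
  have h4 : #(X → Set X) ≤ #M := by
    rw [← Cardinal.power_def]
    calc #(Set X) ^ #X ≤ #M ^ #X := Cardinal.power_le_power_right h3
      _ = #M := hM
  simp only [Cardinal.mk_prod, Cardinal.lift_id]
  exact Cardinal.mul_le_of_le hinf hA (Cardinal.mul_le_of_le hinf hX
    (Cardinal.mul_le_of_le hinf h3 (Cardinal.mul_le_of_le hinf h4
      (Cardinal.mul_le_of_le hinf h4 h3))))

/-- The chain condition, in the form: families of antichains have small supports. -/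
theorem antichains_small {M A' : Type} [Infinite X] [Nonempty Θ]
    (hM : #M ^ #X = #M) (hM2 : 2 ≤ #M) (hA : #A' ≤ #M)
    (Z : A' → Set (Cond X Θ)) (hZ : ∀ a, ∀ z ∈ Z a, Legal N z)
    (hanti : ∀ a, ∀ z ∈ Z a, ∀ z' ∈ Z a, (∃ u, Legal N u ∧ u ≤ z ∧ u ≤ z') → z = z') :
    ∃ V : Set Θ, #V ≤ #M ∧ ∀ a, ∀ z ∈ Z a, z.supp ⊆ V := by
  classical
  have hinf : ℵ₀ ≤ #X := Cardinal.aleph0_le_mk X
  obtain ⟨θ0⟩ := (inferInstance : Nonempty Θ)
  obtain ⟨V, hV0, hVM, hVF⟩ := closure_small (Λ := X) (M := M)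
    (small_card hM hM2 hA) hM hM2 θ0 (smallF Z θ0)
  refine ⟨V, hVM, fun a z hz => ?_⟩
  obtain ⟨ι⟩ : Nonempty (z.supp ↪ X) := (Cardinal.le_def _ _).1 (hZ a z hz).1.1.le
  let c : X → Θ := fun l =>
    if h : ∃ j : z.supp, ι j = l ∧ j.1 ∈ V then (Classical.choose h).1 else θ0
  let U : Set X := {l | ∃ j : z.supp, ι j = l ∧ j.1 ∈ V}
  have hcV : ∀ l, c l ∈ V := by
    intro l
    by_cases h : ∃ j : z.supp, ι j = l ∧ j.1 ∈ V
    · have : c l = (Classical.choose h).1 := dif_pos h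
      rw [this]
      exact (Classical.choose_spec h).2
    · have : c l = θ0 := dif_neg h
      rw [this]
      exact hV0
  have hcj : ∀ j : z.supp, j.1 ∈ V → c (ι j) = j.1 := by
    intro j hj
    have h : ∃ j' : z.supp, ι j' = ι j ∧ j'.1 ∈ V := ⟨j, rfl, hj⟩
    have h1 : c (ι j) = (Classical.choose h).1 := dif_pos h
    rw [h1, ι.injective (Classical.choose_spec h).1]
  have hcU : ∀ l ∈ U, c l ∈ z.supp := by
    rintro l ⟨j, hjl, hjV⟩
    rw [← hjl, hcj j hjV]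
    exact j.2
  let d : A' × X × Set X × (X → Set X) × (X → Set X) × Set X :=
    (a, z.top, z.s, z.l, fun l => z.y (c l), U)
  have hP : smallP Z d c z := ⟨hz, rfl, rfl, rfl, fun l hl => ⟨hcU l hl, rfl⟩⟩
  have hex : ∃ z', smallP Z d c z' := ⟨z, hP⟩
  obtain ⟨w1, w2, w3, w5, w4⟩ := Classical.choose_spec hex
  have hFe : smallF Z θ0 d c = en X θ0 (Classical.choose hex).supp := dif_pos hex
  have hFV := hVF d c hcV
  rw [hFe] at hFV
  generalize Classical.choose hex = z' at w1 w2 w3 w4 w5 hFV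
  have hL := hZ a z hz
  have hL' := hZ a z' w1
  have hsub : z'.supp ⊆ V := by
    intro j hj
    obtain ⟨l, hl⟩ := en_mem (X := X) θ0 z'.supp ((Cardinal.le_def _ _).1 hL'.1.1.le) j hj
    rw [← hl]
    exact hFV l
  have hy : ∀ j ∈ z.supp, j ∈ z'.supp → z.y j = z'.y j := by
    intro j hj hj'
    have hjV : j ∈ V := hsub hj'
    have h5 := (w4 (ι ⟨j, hj⟩) ⟨⟨j, hj⟩, rfl, hjV⟩).2
    have h6 : c (ι ⟨j, hj⟩) = j := hcj ⟨j, hj⟩ hjV
    have h7 : z'.y (c (ι ⟨j, hj⟩)) = z.y (c (ι ⟨j, hj⟩)) := h5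
    rw [h6] at h7
    exact h7.symm
  obtain ⟨u1, u2, u3⟩ := union_spec hinf hL hL' w2.symm w3.symm w5.symm hy
  have hzz : z = z' := hanti a z hz z' w1 ⟨_, u1, u2, u3⟩
  rw [hzz]
  exact hsub

end Pool.Agent.K7.H35.U
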