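import Mathlib
import Pool.Agent.R583.DDefs
set_option autoImplicit false

/-!
# Ladder systems and their uniformization in the language of forcing
-/

namespace Pool.Agent.K7.H35.U

open Cardinal Pool.Agent.Helper669.Forcing Pool.Agent.Helper669.K Pool.Agent.R583.DDefs

section

variable {P : Type} [Preorder P] {X : Type} [LinearOrder X]

/-- `Y` is unbounded in `a`: between every `b < a` and `a` there is an element of `Y`. -/
def FUnbIn (Y : X → Set P) (a : X) : Set P :=
  fall fun b : X => fimp (fground (b < a))
    (fex fun c : X => fand (fground (b < c ∧ c < a)) (meets (Y c)))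

/-- `L` is a ladder system on `S`: for every `a ∈ S` all elements of `L a` are below `a`, and
`L a` is unbounded in `a`. -/
def FLadder (S : X → Set P) (L : X → X → Set P) : Set P :=
  fall fun a : X => fimp (meets (S a))
    (fand (fall fun x : X => fimp (meets (L a x)) (fground (x < a))) (FUnbIn (L a) a))

/-- For some `b < a`, all elements of the ladder `L a` above `b` are in `Y`. -/
def FTailIn (L : X → X → Set P) (Y : X → Set P) (a : X) : Set P :=
  fex fun b : X => fand (fground (b < a))
    (fall fun x : X => fimp (fand (meets (L a x)) (fground (b < x))) (meets (Y x)))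

/-- For some `b < a`, no element of the ladder `L a` above `b` is in `Y`. -/
def FTailOut (L : X → X → Set P) (Y : X → Set P) (a : X) : Set P :=
  fex fun b : X => fand (fground (b < a))
    (fall fun x : X => fimp (fand (meets (L a x)) (fground (b < x))) (fnot (meets (Y x))))

/-- For every `A ⊆ X` there is an unbounded `Y ⊆ X` such that for all `a ∈ S` in which `Y` is
unbounded: if `a ∈ A` then a final segment of the ladder `L a` is contained in `Y`, and if
`a ∉ A` then a final segment of `L a` is disjoint from `Y`. -/
def FUniformized (S : X → Set P) (L : X → X → Set P) : Set P :=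
  fall fun A : X → Set P => fex fun Y : X → Set P =>
    fand (FUnbounded Y)
      (fall fun a : X => fimp (fand (meets (S a)) (FUnbIn Y a))
        (fand (fimp (meets (A a)) (FTailIn L Y a)) (fimp (fnot (meets (A a))) (FTailOut L Y a))))

end

end Pool.Agent.K7.H35.U
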