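import Mathlib
import Pool.Agent.K7.H35.U.Stat
import Pool.Agent.K7.H35.U.CC
import Pool.Agent.K7.H35.U.Defs
import Pool.Agent.Helper539.LadAnti
import Pool.Agent.Helper539.LadBook
set_option autoImplicit false
set_option linter.unusedSectionVars false

/-!
# The generic ladder system is uniformized
-/

namespace Pool.Agent.K7.H35.U

open Cardinal Pool.Agent.Helper669.Forcing Pool.Agent.Helper669.K Pool.Agent.R583.DDefs

/-- coding of conditions -/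
def iota {X Θ : Type} (p : Cond X Θ) : Pool.Agent.Helper539.LadIter.Cond X Θ (Prop × Set X) :=
  ⟨p.top, fun x => (x ∈ p.s, p.l x), p.supp, p.y⟩

theorem iota_inj {X Θ : Type} {p q : Cond X Θ} (h : iota p = iota q) : p = q := by
  have h1 := congrArg Pool.Agent.Helper539.LadIter.Cond.top h
  have h2 := congrArg Pool.Agent.Helper539.LadIter.Cond.g h
  have h3 := congrArg Pool.Agent.Helper539.LadIter.Cond.supp h
  have h4 := congrArg Pool.Agent.Helper539.LadIter.Cond.y h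
  have h5 : p.s = q.s := by
    ext x
    have := congrArg Prod.fst (congrFun h2 x)
    exact iff_of_eq this
  have h6 : p.l = q.l := by
    funext x
    exact congrArg Prod.snd (congrFun h2 x)
  cases p
  cases q
  simp only [iota] at h1 h3 h4 h5 h6
  subst h1 h3 h4 h5 h6
  rfl

theorem bookkeeping {X Θ M : Type} [LinearOrder X] [LinearOrder Θ] [WellFoundedLT Θ] [Infinite X]
    (hM : #M ^ #X = #M) (hM2 : 2 ≤ #M) (hΘ : #Θ = 2 ^ #M) (hΘi : ∀ j : Θ, #(Set.Iio j) < #Θ) :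
    ∃ N : Θ → X → Set (Cond X Θ), ∀ V : Set Θ, #V ≤ #M →
      ∀ Nm : X → Set (Cond X Θ), (∀ γ, ∀ b ∈ Nm γ, WF b ∧ b.supp ⊆ V) →
        ∀ j0 : Θ, ∃ j, j0 ≤ j ∧ N j = Nm := by
  have hXM : #X ≤ #M := by
    calc #X ≤ 2 ^ #X := (Cardinal.cantor _).le
      _ ≤ #M ^ #X := Cardinal.power_le_power_right hM2
      _ = #M := hM
  have hinf : ℵ₀ ≤ #M := (Cardinal.aleph0_le_mk X).trans hXM
  have hK : #(Prop × Set X) ≤ #M := by
    simp only [Cardinal.mk_prod, Cardinal.lift_id, Cardinal.mk_Prop, Cardinal.mk_set]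
    refine Cardinal.mul_le_of_le hinf hM2 ?_
    calc (2 : Cardinal) ^ #X ≤ #M ^ #X := Cardinal.power_le_power_right hM2
      _ = #M := hM
  obtain ⟨N, hN⟩ := Pool.Agent.Helper539.LadBook.bookkeeping (X := X) (Θ := Θ) (K := Prop × Set X)
    (M := M) (Λ := X) (False, ∅) (fun x => ⟨Function.Embedding.subtype _⟩) hM hM2 hXM
    hK hΘ hΘi
  refine ⟨fun j γ => {p | iota p ∈ N j γ γ}, fun V hV Nm hNm j0 => ?_⟩
  obtain ⟨j, hj, hNj⟩ := hN V hV (fun γ _ => iota '' Nm γ) (by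
    rintro γ x _ ⟨b, hb, rfl⟩
    obtain ⟨h1, h2⟩ := hNm γ b hb
    refine ⟨⟨(Cardinal.le_def _ _).1 h1.1.le, fun i _ z hz => (h1.2.2.1 i z hz).le,
      h1.2.2.2.1, fun z hz => ?_⟩, h2⟩
    have h3 : z ∉ b.s := fun h => absurd (h1.2.1 z h).1 (not_lt.2 (le_of_lt hz))
    exact Prod.ext (eq_false h3) (h1.2.2.2.2 z h3)) j0
  refine ⟨j, hj, ?_⟩
  funext γ
  ext p
  have h : N j γ γ = iota '' Nm γ := by rw [hNj]
  change iota p ∈ N j γ γ ↔ p ∈ Nm γ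
  rw [h]
  constructor
  · rintro ⟨q, hq, hqp⟩
    rw [← iota_inj hqp]
    exact hq
  · exact fun hp => ⟨p, hp, rfl⟩

variable {X Θ : Type} [LinearOrder X] [WellFoundedLT X] [LinearOrder Θ] [WellFoundedLT Θ]
  {N : Θ → X → Set (Cond X Θ)}

theorem exists_above (hX : Bdd X) (p : PT N) (b : X) (j : Θ) :
    ∃ q ≤ p, b < q.1.top ∧ j ∈ q.1.supp := by
  have hinf : ℵ₀ ≤ #X := hX.reg.aleph0_le
  obtain ⟨t, ht⟩ := hX.exists_lt (max b p.1.top)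
  obtain ⟨h1, h2⟩ := addW_spec p.2 (t := t) ((le_max_right _ _).trans ht.le) (V := {j}) (by
    refine lt_of_le_of_lt (Cardinal.mk_union_le _ _) (Cardinal.add_lt_of_lt hinf p.2.1.1 ?_)
    rw [Cardinal.mk_singleton]
    exact lt_of_lt_of_le Cardinal.one_lt_aleph0 hinf) (W := fun _ => ∅)
    (fun _ x hx => hx.elim)
  exact ⟨⟨_, h1⟩, h2, (le_max_left _ _).trans_lt ht, Or.inr rfl⟩

theorem exists_point (hX : Bdd X) (p : PT N) (j : Θ) :
    ∃ q ≤ p, p.1.top < q.1.top ∧ j ∈ q.1.supp ∧ p.1.top ∈ q.1.y j := by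
  classical
  have hinf : ℵ₀ ≤ #X := hX.reg.aleph0_le
  obtain ⟨t, ht⟩ := hX.exists_lt p.1.top
  obtain ⟨h1, h2⟩ := addW_spec p.2 (t := t) ht.le (V := {j}) (by
    refine lt_of_le_of_lt (Cardinal.mk_union_le _ _) (Cardinal.add_lt_of_lt hinf p.2.1.1 ?_)
    rw [Cardinal.mk_singleton]
    exact lt_of_lt_of_le Cardinal.one_lt_aleph0 hinf)
    (W := fun i => {x | x = p.1.top ∧ i = j})
    (by
      rintro i x ⟨rfl, rfl⟩
      exact ⟨le_rfl, ht, Or.inr rfl⟩)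
  exact ⟨⟨_, h1⟩, h2, ht, Or.inr rfl, Or.inr ⟨rfl, rfl⟩⟩

theorem unbounded_YName (hX : Bdd X) (j : Θ) (p : PT N) : p ∈ FUnbounded (YName N j) := by
  refine fun b => mem_fex.2 fun q _ => ?_
  obtain ⟨q0, hq0, hb, -⟩ := exists_above hX q b j
  obtain ⟨q1, hq1, -, -, hm⟩ := exists_point hX q0 j
  exact ⟨q1, hq1.trans hq0, q0.1.top, hb, meets_of_mem hm⟩

/-- elements of the named ladder -/
theorem mem_ladder {δ x : X} {r q : PT N} (hδ : δ ∈ r.1.s) (hq : q ≤ r)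
    (h : q ∈ meets (LName N δ x)) : x ∈ r.1.l δ := by
  obtain ⟨u, hu, s, hs, hus⟩ := h q le_rfl
  have hs' : x ∈ s.1.l δ := hs
  have hδs : δ ∈ s.1.s := by
    by_contra hc
    rw [s.2.1.2.2.2.2 δ hc] at hs'
    exact hs'
  have h1 : u.1.l δ = s.1.l δ := (hus.2.1 δ (s.2.1.2.1 δ hδs).1).2
  have h2 : u.1.l δ = r.1.l δ := ((hu.trans hq).2.1 δ (r.2.1.2.1 δ hδ).1).2
  rw [← h2, h1]
  exact hs'

theorem ladder (p : PT N) : p ∈ FLadder (SName N) (LName N) := by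
  intro δ
  refine mem_fimp.2 fun q _ hS => ?_
  obtain ⟨r, hr, s, hs, hrs⟩ := hS q le_rfl
  have hδr : δ ∈ r.1.s := (hrs.2.1 δ (s.2.1.2.1 δ hs).1).1.2 hs
  have hw := r.2.1.2.1 δ hδr
  refine ⟨r, hr, fun x => mem_fimp.2 fun q' hq' hL => ⟨q', le_rfl, ?_⟩,
    fun b => mem_fimp.2 fun q' hq' hb => ⟨q', le_rfl, ?_⟩⟩
  · exact hw.2.2.1 x (mem_ladder hδr hq' hL)
  · obtain ⟨c, hc, h1, h2⟩ := hw.2.2.2 b hb
    refine mem_fex_of_mem c (down_fand (down_fground _) (down_meets _)) ⟨⟨h1, h2⟩, ?_⟩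
    exact meets_of_le (s := r) hc hq'

theorem uniformized [Nonempty X] [Infinite X] [Nonempty Θ] {M : Type} (hX : Bdd X)
    (hM : #M ^ #X = #M) (hM2 : 2 ≤ #M)
    (hbook : ∀ V : Set Θ, #V ≤ #M → ∀ Nm : X → Set (Cond X Θ),
      (∀ γ, ∀ b ∈ Nm γ, WF b ∧ b.supp ⊆ V) → ∀ j0 : Θ, ∃ j, j0 ≤ j ∧ N j = Nm)
    (hcf : ∀ V : Set Θ, #V ≤ #M → ∃ j0, ∀ j ∈ V, j < j0) (p : PT N) :
    p ∈ FUniformized (SName N) (LName N) := by
  classical
  intro A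
  have hinf : ℵ₀ ≤ #X := hX.reg.aleph0_le
  have hXM : #X ≤ #M := by
    calc #X ≤ 2 ^ #X := (Cardinal.cantor _).le
      _ ≤ #M ^ #X := Cardinal.power_le_power_right hM2
      _ = #M := hM
  -- the antichains
  have hZ := fun δ : X => Pool.Agent.Helper539.LadAnti.exists_maximal_antichain
    {u : PT N | ∃ b ∈ A δ, u ≤ b}
  choose Z hZ1 hZ2 hZ3 using hZ
  obtain ⟨V, hVM, hV⟩ := antichains_small (N := N) (M := M) (A' := X) hM hM2 hXM
    (fun a => Subtype.val '' Z a)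
    (by
      rintro a _ ⟨z, -, rfl⟩
      exact z.2)
    (by
      rintro a _ ⟨z, hz, rfl⟩ _ ⟨z', hz', rfl⟩ ⟨u, hu, h1, h2⟩
      exact congrArg Subtype.val (hZ2 a z hz z' hz' ⟨⟨u, hu⟩, h1, h2⟩))
  obtain ⟨j0, hj0⟩ := hcf V hVM
  obtain ⟨j, hj, hNj⟩ := hbook V hVM (fun γ => Subtype.val '' Z γ) (by
    rintro γ _ ⟨z, hz, rfl⟩
    exact ⟨z.2.1, hV γ z.1 ⟨z, hz, rfl⟩⟩) j0
  have hsupp : ∀ δ, ∀ z ∈ Z δ, z.1.supp ⊆ Set.Iio j := fun δ z hz i hi =>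
    (hj0 i (hV δ z.1 ⟨z, hz, rfl⟩ hi)).trans_le hj
  have hres : ∀ z : PT N, z.1.supp ⊆ Set.Iio j → ∀ u : PT N, u ≤ z →
      restr u.1 (Set.Iio j) ≤ z.1 := by
    intro z hz u huz
    refine (restr_mono huz _).trans ⟨le_rfl, fun _ _ => ⟨Iff.rfl, rfl⟩, fun i hi => ⟨hi, hz hi⟩,
      fun i hi x _ => ?_⟩
    exact ⟨fun h => h.1, fun h => ⟨h, hz hi⟩⟩
  refine mem_fex_of_mem (YName N j) (down_fand (down_FUnbounded _) (down_fall fun _ =>
    down_fimp _ _)) ⟨unbounded_YName hX j p, fun δ => mem_fimp.2 fun q _ hq => ?_⟩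
  obtain ⟨hS, hUn⟩ := hq
  obtain ⟨r0, hr0, s, hs, hrs⟩ := hS q le_rfl
  have hδr0 : δ ∈ r0.1.s := (hrs.2.1 δ (s.2.1.2.1 δ hs).1).1.2 hs
  obtain ⟨r, hr, hδt', hjr⟩ := exists_above hX r0 δ j
  have hδr : δ ∈ r.1.s := (hr.2.1 δ (r0.2.1.2.1 δ hδr0).1).1.2 hδr0
  have hδt : δ < r.1.top := (r.2.1.2.1 δ hδr).1
  -- membership in the coordinate
  have hY : ∀ x < r.1.top, ∀ q' ≤ r, q' ∈ meets (YName N j x) → x ∈ r.1.y j := by
    intro x hx q' hq' h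
    obtain ⟨u, hu, s', hs', hus⟩ := h q' le_rfl
    have hjs' : j ∈ s'.1.supp := by
      by_contra hc
      have h1 : x ∈ s'.1.y j := hs'
      rw [s'.2.1.2.2.2.1 j hc] at h1
      exact h1
    have h1 : x ∈ u.1.y j := (hus.2.2.2 j hjs' x (s'.2.1.2.2.1 j x hs')).2 hs'
    exact ((hu.trans hq').2.2.2 j hjr x hx).1 h1
  have hu : Unb (r.1.y j) δ := by
    intro b hb
    obtain ⟨r1, hr1, hr1'⟩ := mem_fimp.1 (down_fall (fun _ => down_fimp _ _) _ hUn r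
      (hr.trans hr0) b) r le_rfl hb
    obtain ⟨r2, hr2, c, ⟨hbc, hcδ⟩, hcm⟩ := mem_fex.1 hr1' r1 le_rfl
    exact ⟨c, hY c (hcδ.trans hδt) r2 (hr2.trans hr1) hcm, hbc, hcδ⟩
  have hreq := r.2.2 j hjr δ hδr hu
  refine ⟨r, hr.trans hr0, ?_⟩
  rcases hreq with ⟨hin, a, ha, htail⟩ | ⟨hout, a, ha, htail⟩
  · refine ⟨mem_fimp.2 fun q' hq' _ => ⟨q', le_rfl, ?_⟩, mem_fimp.2 fun q' hq' hnA => ?_⟩
    · refine mem_fex_of_mem a (down_fand (down_fground _) (down_fall fun _ => down_fimp _ _))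
        ⟨ha, fun x => mem_fimp.2 fun q'' hq'' hL => ⟨q'', le_rfl, ?_⟩⟩
      have hxr := mem_ladder hδr (hq''.trans hq') hL.1
      have hxδ := (r.2.1.2.1 δ hδr).2.2.1 x hxr
      have h1 : x ∈ r.1.y j := htail x hxr hL.2 hxδ
      exact meets_of_le (s := r) h1 (hq''.trans hq')
    · exfalso
      obtain ⟨t, ht⟩ := hX.exists_lt q'.1.top
      obtain ⟨hrl, hrle⟩ := raise_spec q'.2 ht.le
      obtain ⟨w, hw, hwle, b, hb, hwb⟩ := hin (restr (raise q'.1 t) (Set.Iio j))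
        (restr_mem_lg hrl j) (restr_mono (hrle.trans hq') _)
      obtain ⟨hwl, hws⟩ := mem_lg.1 hw
      obtain ⟨h1, h2, h3⟩ := am_spec (isLowerSet_Iio j) hwl q'.2 ht hwle.1 hwle.2.1 hinf (by
        intro i hi his
        refine ⟨hwle.2.2.1 ⟨his, hi⟩, fun x hx => ?_⟩
        rw [hwle.2.2.2 i ⟨his, hi⟩ x (hx.trans ht)]
        exact ⟨fun h => h.1, fun h => ⟨h, hi⟩⟩)
      rw [hNj] at hb
      obtain ⟨z, hz, rfl⟩ := hb
      obtain ⟨a', ha', hza⟩ := hZ1 δ hz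
      have h4 : am (Set.Iio j) w q'.1 ≤ z.1 := by
        refine (restr_le _ (Set.Iio j)).trans (h3.trans (le_trans ?_ hwb))
        exact ⟨le_rfl, fun _ _ => ⟨Iff.rfl, rfl⟩, fun i hi => ⟨hi, hws hi⟩,
          fun i hi x _ => ⟨fun h => h.1, fun h => ⟨h, hws hi⟩⟩⟩
      have h5 : (⟨_, h1⟩ : PT N) ≤ a' := le_trans (show (⟨_, h1⟩ : PT N) ≤ z from h4) hza
      exact hnA ⟨_, h1⟩ h2 (meets_of_le ha' h5)
  · refine ⟨mem_fimp.2 fun q' hq' hA => ?_, mem_fimp.2 fun q' hq' _ => ⟨q', le_rfl, ?_⟩⟩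
    · exfalso
      obtain ⟨u, hu', b, hb, hub⟩ := hA q' le_rfl
      obtain ⟨z, hz, u', hu1, huz⟩ := hZ3 δ u ⟨b, hb, hub⟩
      refine hout (restr u'.1 (Set.Iio j)) (restr_mem_lg u'.2 j)
        (restr_mono (hu1.trans (hu'.trans hq')) _) z.1 ?_ (hres z (hsupp δ z hz) u' huz)
      rw [hNj]
      exact ⟨z, hz, rfl⟩
    · refine mem_fex_of_mem a (down_fand (down_fground _) (down_fall fun _ => down_fimp _ _))
        ⟨ha, fun x => mem_fimp.2 fun q'' hq'' hL => ⟨q'', le_rfl, ?_⟩⟩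
      have hxr := mem_ladder hδr (hq''.trans hq') hL.1
      have hxδ := (r.2.1.2.1 δ hδr).2.2.1 x hxr
      intro q3 hq3 hm
      exact htail x hxr hL.2 hxδ (hY x (hxδ.trans hδt) q3 (hq3.trans (hq''.trans hq')) hm)

end Pool.Agent.K7.H35.U
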