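import Mathlib
import Pool.Agent.K7.H35.U.Kill
import Pool.Agent.R583.DFinal
set_option autoImplicit false
set_option linter.unusedSectionVars false

/-!
# Assembly
-/

namespace Pool.Agent.K7.H35.U

open Cardinal Pool.Agent.Helper669.Forcing Pool.Agent.Helper669.K Pool.Agent.R583.DDefs

theorem bdd_ord {κ : Cardinal.{0}} (hκ : κ.IsRegular) : Bdd κ.ord.ToType :=
  ⟨(Pool.Agent.R583.D.bdd_ord hκ).reg, (Pool.Agent.R583.D.bdd_ord hκ).bdd⟩

/-- The generic ladder system. -/
theorem main {κ : Cardinal.{0}} (h : IndestructiblyIneffable κ) :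
    ∃ (P : Type) (_ : Preorder P), Nonempty P ∧ DirClosed κ P ∧ ∀ p : P,
      p ∈ StaysRegular P κ ∧ p ∈ FIneffable P κ.ord.ToType ∧
      p ∈ fex fun S : κ.ord.ToType → Set P =>
        fex fun L : κ.ord.ToType → κ.ord.ToType → Set P =>
          fand (fall fun a => fimp (meets (S a)) (FCofOmega a))
            (fand (FStationary fun a => meets (S a)) (fand (FLadder S L) (FUniformized S L))) := by
  classical
  have hstr := Pool.Agent.R583.D.strongLimit h
  obtain ⟨h0, hκ, hI⟩ := h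
  have hinf := hκ.aleph0_le
  let X : Type := κ.ord.ToType
  have hXκ : #X = κ := mk_ord_toType κ
  have hX : Bdd X := bdd_ord hκ
  have iX : Infinite X := Cardinal.infinite_iff.2 (by rw [hXκ]; exact hinf)
  have iX' : Nonempty X := inferInstance
  let M : Type := Set X
  have hMκ : #M = 2 ^ κ := by rw [Cardinal.mk_set, hXκ]
  have hM : #M ^ #X = #M := by
    rw [hMκ, hXκ, ← Cardinal.power_mul, Cardinal.mul_eq_self hinf]
  have hM2 : 2 ≤ #M := by
    rw [hMκ]
    exact ((Cardinal.ofNat_lt_aleph0 (n := 2)).le.trans hinf).trans (Cardinal.cantor _).le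
  let c : Cardinal.{0} := 2 ^ ((2 : Cardinal.{0}) ^ κ)
  let Θ : Type := c.ord.ToType
  have hΘc : #Θ = c := mk_ord_toType c
  have hΘ : #Θ = 2 ^ #M := by rw [hΘc, hMκ]
  have iΘ : Nonempty Θ := by
    rw [← Cardinal.mk_ne_zero_iff, hΘ]
    exact Cardinal.power_ne_zero _ two_ne_zero
  obtain ⟨N, hN⟩ := bookkeeping (X := X) (Θ := Θ) (M := M) hM hM2 hΘ (fun j => by
    have := mk_Iio_lt (α := Θ) j (by simp [Θ])
    exact this)
  have hcf : ∀ V : Set Θ, #V ≤ #M → ∃ j0, ∀ j ∈ V, j < j0 := by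
    intro V hV
    rw [hMκ] at hV
    refine Pool.Agent.R583.D.cof_theta (c := c) (M := 2 ^ κ) ?_ V hV
    exact Cardinal.lt_cof_ord_power (hinf.trans (Cardinal.cantor κ).le) Cardinal.one_lt_two
  have hdir : DirClosed κ (PT N) := by
    have := dirClosed_PT (N := N) hX
    rwa [hXκ] at this
  have h0X : ℵ₀ < #X := by rw [hXκ]; exact h0
  refine ⟨PT N, inferInstance, ?_, hdir, fun p =>
    ⟨Pool.Agent.R583.D.staysRegular_of_dirClosed hκ hdir p, hI (PT N) hdir p, ?_⟩⟩
  · obtain ⟨x0⟩ := iX'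
    refine ⟨⟨⟨x0, ∅, fun _ => ∅, ∅, fun _ => ∅⟩, ⟨?_, fun x hx => hx.elim,
      fun _ x hx => hx.elim, fun _ _ => rfl, fun _ _ => rfl⟩, fun i hi => hi.elim⟩⟩
    rw [Cardinal.mk_eq_zero]
    exact Cardinal.aleph0_pos.trans h0X
  · refine mem_fex_of_mem (SName N) (down_fex _) (mem_fex_of_mem (LName N)
      (down_fand (down_fall fun _ => down_fimp _ _)
      (down_fand (down_FStationary _) (down_fand (down_fall fun _ => down_fimp _ _)
        (down_fall fun _ => down_fex _)))) ⟨fun a => ?_, ?_, ?_, ?_⟩)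
    · refine mem_fimp.2 fun q _ hq => ?_
      obtain ⟨r, hr, s, hs, -⟩ := hq q le_rfl
      exact ⟨r, hr, Pool.Agent.R583.D.cofOmega_name (s.2.1.2.1 a hs).2.1 r⟩
    · exact stationary hX (by rw [hXκ]; exact hstr) h0X p
    · exact ladder p
    · exact uniformized (M := M) hX hM hM2 hN hcf p

end Pool.Agent.K7.H35.U
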