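import Mathlib
import Pool.Agent.K7.H35.U.Uni
set_option autoImplicit false
set_option linter.unusedSectionVars false

/-!
# The space of a uniformized ladder system
-/

namespace Pool.Agent.K7.H35.U

open Cardinal Set Topology

/-- `S` is stationary in `X` and `L` is a ladder system on `S` which is uniformized: for every
`A ⊆ X` there is an unbounded `Y ⊆ X` such that for all `a ∈ S` in which `Y` is unbounded, a
final segment of `L a` is contained in `Y` if `a ∈ A`, and is disjoint from `Y` if `a ∉ A`. -/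
structure UnifLadder {X : Type} [LinearOrder X] (S : Set X) (L : X → Set X) : Prop where
  stat : ∀ C : Set X, (∀ b, ∃ c ∈ C, b < c) →
    (∀ d, (∃ b, b < d) → (∀ b < d, ∃ c ∈ C, b < c ∧ c < d) → d ∈ C) → ∃ a ∈ S, a ∈ C
  lt : ∀ a ∈ S, ∀ x ∈ L a, x < a
  unb : ∀ a ∈ S, ∀ b < a, ∃ c ∈ L a, b < c ∧ c < a
  unif : ∀ A : Set X, ∃ Y : Set X, (∀ b, ∃ c ∈ Y, b < c) ∧
    ∀ a ∈ S, (∀ b < a, ∃ c ∈ Y, b < c ∧ c < a) →
      (a ∈ A → ∃ b < a, ∀ x ∈ L a, b < x → x ∈ Y) ∧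
      (a ∉ A → ∃ b < a, ∀ x ∈ L a, b < x → x ∉ Y)

section

variable {X : Type} [LinearOrder X]

/-- the isolated points near `a` -/
def B (S : Set X) (L : X → Set X) (a b c : X) : Set (X ⊕ X × X × X) :=
  {p | ∃ x d e, p = Sum.inr (x, d, e) ∧ d ∈ S ∧ e ∈ S ∧ x ∈ L d ∧ x ∈ L e ∧ d < e ∧ b < x ∧
    (e = a ∨ (d = a ∧ c < e))}

theorem B_mono (S : Set X) (L : X → Set X) {a b c b' c' : X} (hb : b ≤ b') (hc : c ≤ c') :
    B S L a b' c' ⊆ B S L a b c := by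
  rintro p ⟨x, d, e, rfl, h1, h2, h3, h4, h5, h6, h7⟩
  refine ⟨x, d, e, rfl, h1, h2, h3, h4, h5, hb.trans_lt h6, ?_⟩
  rcases h7 with h7 | ⟨h7, h8⟩
  · exact Or.inl h7
  · exact Or.inr ⟨h7, hc.trans_lt h8⟩

/-- the topology -/
@[reducible] def topo (S : Set X) (L : X → Set X) (hbot : ∀ a ∈ S, ∃ b, b < a) :
    TopologicalSpace (X ⊕ X × X × X) where
  IsOpen U := ∀ a ∈ S, Sum.inl a ∈ U → ∃ b < a, ∃ c, B S L a b c ⊆ U
  isOpen_univ a ha _ := by
    obtain ⟨b, hb⟩ := hbot a ha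
    exact ⟨b, hb, a, subset_univ _⟩
  isOpen_inter U V hU hV a ha h := by
    obtain ⟨b, hb, c, h1⟩ := hU a ha h.1
    obtain ⟨b', hb', c', h2⟩ := hV a ha h.2
    exact ⟨max b b', max_lt hb hb', max c c', subset_inter
      ((B_mono S L (le_max_left _ _) (le_max_left _ _)).trans h1)
      ((B_mono S L (le_max_right _ _) (le_max_right _ _)).trans h2)⟩
  isOpen_sUnion 𝒰 h a ha := by
    rintro ⟨U, hU, haU⟩
    obtain ⟨b, hb, c, h1⟩ := h U hU a ha haU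
    exact ⟨b, hb, c, h1.trans (subset_sUnion_of_mem hU)⟩

variable {S : Set X} {L : X → Set X} (hbot : ∀ a ∈ S, ∃ b, b < a)

theorem isOpen_iff' (U : Set (X ⊕ X × X × X)) : IsOpen[topo S L hbot] U ↔
    ∀ a ∈ S, Sum.inl a ∈ U → ∃ b < a, ∃ c, B S L a b c ⊆ U := Iff.rfl

theorem isOpen_N {a b c : X} (hb : b < a) :
    IsOpen[topo S L hbot] (insert (Sum.inl a) (B S L a b c)) := by
  intro a' _ h
  rcases h with h | ⟨x, d, e, h, -⟩
  · obtain rfl : a' = a := Sum.inl_injective h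
    exact ⟨b, hb, c, subset_insert _ _⟩
  · exact absurd h (by simp)

theorem isOpen_of_notMem {U : Set (X ⊕ X × X × X)} (h : ∀ a ∈ S, Sum.inl a ∉ U) :
    IsOpen[topo S L hbot] U := fun a ha h' => absurd h' (h a ha)

/-- the two sides of the separation -/
def W (S : Set X) (L : X → Set X) (Y1 Y2 A C : Set X) : Set (X ⊕ X × X × X) :=
  {p | (∃ a ∈ S, a ∈ A ∧ p = Sum.inl a) ∨ ∃ x d e, p = Sum.inr (x, d, e) ∧ d ∈ S ∧ e ∈ S ∧
    x ∈ L d ∧ x ∈ L e ∧ d < e ∧ ((x ∈ Y1 ∧ x ∉ Y2) ∨ ((x ∈ Y1 ↔ x ∈ Y2) ∧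
      ((e ∈ A ∧ ∀ c ∈ C, ¬ (x < c ∧ c < e)) ∨
        (d ∈ A ∧ (∀ c ∈ C, ¬ (x < c ∧ c < d)) ∧ ∃ c ∈ C, d < c ∧ c < e))))}

/-- `Y` uniformizes `A` -/
def Unif (S : Set X) (L : X → Set X) (A Y : Set X) : Prop :=
  ∀ a ∈ S, Unb Y a →
      (a ∈ A → ∃ b < a, ∀ x ∈ L a, b < x → x ∈ Y) ∧
      (a ∉ A → ∃ b < a, ∀ x ∈ L a, b < x → x ∉ Y)

theorem tail_out {A Y : Set X} (hlt : ∀ a ∈ S, ∀ x ∈ L a, x < a) (h : Unif S L A Y)
    {a : X} (ha : a ∈ S) (haA : a ∉ A) : ∃ b < a, ∀ x ∈ L a, b < x → x ∉ Y := by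
  by_cases hu : Unb Y a
  · exact (h a ha hu).2 haA
  · unfold Unb at hu
    push Not at hu
    obtain ⟨b, hb, h1⟩ := hu
    exact ⟨b, hb, fun x hx hbx hxY => absurd (hlt a ha x hx) (not_lt.2 (h1 x hxY hbx))⟩

theorem isOpen_W {Y1 Y2 A C : Set X} (hlt : ∀ a ∈ S, ∀ x ∈ L a, x < a)
    (h1 : Unif S L A Y1) (h2 : Unif S L Aᶜ Y2) (hC : ∀ c ∈ C, Unb Y1 c)
    (hCu : ∀ b, ∃ c ∈ C, b < c) : IsOpen[topo S L hbot] (W S L Y1 Y2 A C) := by
  intro a ha haW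
  have haA : a ∈ A := by
    rcases haW with ⟨a', _, h, h'⟩ | ⟨x, d, e, h, -⟩
    · obtain rfl : a = a' := Sum.inl_injective h'
      exact h
    · exact absurd h (by simp)
  obtain ⟨b2, hb2, h2'⟩ := tail_out hlt h2 ha (fun h => h haA)
  by_cases hu : Unb Y1 a
  · obtain ⟨b1, hb1, h1'⟩ := (h1 a ha hu).1 haA
    refine ⟨max b1 b2, max_lt hb1 hb2, a, ?_⟩
    rintro p ⟨x, d, e, rfl, hd, he, hxd, hxe, hde, hbx, hor⟩
    have hx : x ∈ L a := by
      rcases hor with rfl | ⟨rfl, -⟩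
      · exact hxe
      · exact hxd
    exact Or.inr ⟨x, d, e, rfl, hd, he, hxd, hxe, hde,
      Or.inl ⟨h1' x hx ((le_max_left _ _).trans_lt hbx), h2' x hx ((le_max_right _ _).trans_lt hbx)⟩⟩
  · unfold Unb at hu
    push Not at hu
    obtain ⟨b1, hb1, h1'⟩ := hu
    obtain ⟨c0, hc0, hac0⟩ := hCu a
    have hP : ∀ x, b1 < x → ∀ c ∈ C, ¬ (x < c ∧ c < a) := by
      rintro x hx c hc ⟨hxc, hca⟩
      obtain ⟨y, hy, hxy, hyc⟩ := hC c hc x hxc
      exact absurd (hyc.trans hca) (not_lt.2 (h1' y hy (hx.trans hxy)))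
    refine ⟨max b1 b2, max_lt hb1 hb2, c0, ?_⟩
    rintro p ⟨x, d, e, rfl, hd, he, hxd, hxe, hde, hbx, hor⟩
    have hx : x ∈ L a := by
      rcases hor with rfl | ⟨rfl, -⟩
      · exact hxe
      · exact hxd
    have hx1 : x ∉ Y1 := fun h => absurd (hlt a ha x hx)
      (not_lt.2 (h1' x h ((le_max_left _ _).trans_lt hbx)))
    have hx2 : x ∉ Y2 := h2' x hx ((le_max_right _ _).trans_lt hbx)
    refine Or.inr ⟨x, d, e, rfl, hd, he, hxd, hxe, hde, Or.inr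
      ⟨⟨fun h => absurd h hx1, fun h => absurd h hx2⟩, ?_⟩⟩
    rcases hor with rfl | ⟨rfl, hc⟩
    · exact Or.inl ⟨haA, hP x ((le_max_left _ _).trans_lt hbx)⟩
    · exact Or.inr ⟨haA, hP x ((le_max_left _ _).trans_lt hbx), c0, hc0, hac0, hc⟩

theorem disjoint_W {Y1 Y2 A C : Set X} (hlt : ∀ a ∈ S, ∀ x ∈ L a, x < a) :
    Disjoint (W S L Y1 Y2 A C) (W S L Y2 Y1 Aᶜ C) := by
  rw [Set.disjoint_left]
  rintro p (⟨a, _, haA, rfl⟩ | ⟨x, d, e, rfl, hd, he, hxd, hxe, hde, h⟩)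
    (⟨a', _, haA', h'⟩ | ⟨x', d', e', h', -, -, -, -, -, h''⟩)
  · obtain rfl : a = a' := Sum.inl_injective h'
    exact haA' haA
  · exact absurd h' (by simp)
  · exact absurd h' (by simp)
  · simp only [Sum.inr.injEq, Prod.mk.injEq] at h'
    obtain ⟨rfl, rfl, rfl⟩ := h'
    rcases h with ⟨h1, h2⟩ | ⟨h1, h2⟩
    · rcases h'' with ⟨h3, -⟩ | ⟨h3, -⟩
      · exact h2 h3
      · exact h2 (h3.2 h1)
    · rcases h'' with ⟨h3, h4⟩ | ⟨-, h4⟩
      · exact h4 (h1.2 h3)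
      · rcases h2 with ⟨h5, h6⟩ | ⟨h5, -, c, hc, hdc, hce⟩
        · rcases h4 with ⟨h7, -⟩ | ⟨-, -, c, hc, hdc, hce⟩
          · exact h7 h5
          · exact h6 c hc ⟨(hlt d hd x hxd).trans hdc, hce⟩
        · rcases h4 with ⟨-, h8⟩ | ⟨h7, -⟩
          · exact h8 c hc ⟨(hlt d hd x hxd).trans hdc, hce⟩
          · exact h7 h5

theorem club_of_unbounded [WellFoundedLT X] (hX : Bdd X) (h0 : ℵ₀ < #X) {Y1 Y2 : Set X}
    (h1 : ∀ b, ∃ c ∈ Y1, b < c) (h2 : ∀ b, ∃ c ∈ Y2, b < c) (b : X) :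
    ∃ c, Unb Y1 c ∧ Unb Y2 c ∧ b < c := by
  have hstep : ∀ z : X, ∃ z', z < z' ∧ (∃ y ∈ Y1, z < y ∧ y < z') ∧ (∃ y ∈ Y2, z < y ∧ y < z') := by
    intro z
    obtain ⟨y1, hy1, h1'⟩ := h1 z
    obtain ⟨y2, hy2, h2'⟩ := h2 z
    obtain ⟨t, ht⟩ := hX.exists_lt (max y1 y2)
    exact ⟨t, h1'.trans ((le_max_left _ _).trans_lt ht), ⟨y1, hy1, h1', (le_max_left _ _).trans_lt ht⟩,
      ⟨y2, hy2, h2', (le_max_right _ _).trans_lt ht⟩⟩
  choose g hg1 hg2 hg3 using hstep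
  let f : ℕ → X := fun n => Nat.rec b (fun _ x => g x) n
  have hf : ∀ n, f (n + 1) = g (f n) := fun n => rfl
  obtain ⟨c, hc⟩ := exists_isLUB hX (S := range f)
    (lt_of_le_of_lt (Cardinal.mk_le_aleph0_iff.2 (Set.countable_range _)) h0)
  have hlt : ∀ n, f n < c := fun n => (hg1 (f n)).trans_le (hc.1 ⟨n + 1, rfl⟩)
  have hcof : ∀ b' < c, ∃ n, b' < f n := by
    intro b' hb'
    by_contra hcon
    push Not at hcon
    refine absurd hb' (not_lt.2 (hc.2 ?_))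
    rintro _ ⟨n, rfl⟩
    exact hcon n
  refine ⟨c, fun b' hb' => ?_, fun b' hb' => ?_, hlt 0⟩
  · obtain ⟨n, hn⟩ := hcof b' hb'
    obtain ⟨y, hy, hy1, hy2⟩ := hg2 (f n)
    exact ⟨y, hy, hn.trans hy1, hy2.trans (hlt (n + 1))⟩
  · obtain ⟨n, hn⟩ := hcof b' hb'
    obtain ⟨y, hy, hy1, hy2⟩ := hg3 (f n)
    exact ⟨y, hy, hn.trans hy1, hy2.trans (hlt (n + 1))⟩

theorem separate [WellFoundedLT X] (hX : Bdd X) (h0 : ℵ₀ < #X) (h : UnifLadder S L)
    (A : Set X) : ∃ U V : Set (X ⊕ X × X × X), IsOpen[topo S L hbot] U ∧ IsOpen[topo S L hbot] V ∧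
      Disjoint U V ∧ (∀ a ∈ S, a ∈ A → Sum.inl a ∈ U) ∧ ∀ a ∈ S, a ∉ A → Sum.inl a ∈ V := by
  obtain ⟨Y1, hY1, hY1'⟩ := h.unif A
  obtain ⟨Y2, hY2, hY2'⟩ := h.unif Aᶜ
  let C : Set X := {c | Unb Y1 c ∧ Unb Y2 c}
  have hCu : ∀ b, ∃ c ∈ C, b < c := by
    intro b
    obtain ⟨c, h1, h2, h3⟩ := club_of_unbounded hX h0 hY1 hY2 b
    exact ⟨c, ⟨h1, h2⟩, h3⟩
  refine ⟨W S L Y1 Y2 A C, W S L Y2 Y1 Aᶜ C, ?_, ?_, disjoint_W h.lt, ?_, ?_⟩
  · exact isOpen_W hbot h.lt hY1' hY2' (fun c hc => hc.1) hCu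
  · refine isOpen_W hbot h.lt hY2' ?_ (fun c hc => hc.2) hCu
    rw [compl_compl]
    exact hY1'
  · exact fun a ha haA => Or.inl ⟨a, ha, haA, rfl⟩
  · exact fun a ha haA => Or.inl ⟨a, ha, haA, rfl⟩

theorem normal [WellFoundedLT X] (hX : Bdd X) (h0 : ℵ₀ < #X) (h : UnifLadder S L) :
    @NormalSpace _ (topo S L hbot) := by
  let _ := topo S L hbot
  refine ⟨fun s t hs ht hst => ?_⟩
  obtain ⟨U, V, hU, hV, hUV, hUA, hVA⟩ := separate hbot hX h0 h {a | Sum.inl a ∈ s}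
  have hi : ∀ Z : Set (X × X × X), IsOpen (Sum.inr '' Z : Set (X ⊕ X × X × X)) := fun Z =>
    isOpen_of_notMem hbot (by
      rintro a _ ⟨p, _, hp⟩
      exact absurd hp (by simp))
  have hj : ∀ Z : Set X, (∀ a ∈ Z, a ∉ S) → IsOpen (Sum.inl '' Z : Set (X ⊕ X × X × X)) :=
    fun Z hZ => isOpen_of_notMem hbot (by
      rintro a ha ⟨p, hp, hp'⟩
      obtain rfl : p = a := Sum.inl_injective hp'
      exact hZ p hp ha)
  refine ⟨(U ∩ tᶜ) ∪ (Sum.inr '' (Sum.inr ⁻¹' s) ∪ Sum.inl '' {a | a ∉ S ∧ Sum.inl a ∈ s}),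
    (V ∩ sᶜ) ∪ (Sum.inr '' (Sum.inr ⁻¹' t) ∪ Sum.inl '' {a | a ∉ S ∧ Sum.inl a ∈ t}),
    (hU.inter ht.isOpen_compl).union ((hi _).union (hj _ fun a ha => ha.1)),
    (hV.inter hs.isOpen_compl).union ((hi _).union (hj _ fun a ha => ha.1)), ?_, ?_, ?_⟩
  · rintro (a | p) hp
    · by_cases haS : a ∈ S
      · exact Or.inl ⟨hUA a haS hp, fun h' => Set.disjoint_left.1 hst hp h'⟩
      · exact Or.inr (Or.inr ⟨a, ⟨haS, hp⟩, rfl⟩)
    · exact Or.inr (Or.inl ⟨p, hp, rfl⟩)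
  · rintro (a | p) hp
    · by_cases haS : a ∈ S
      · exact Or.inl ⟨hVA a haS fun h' => Set.disjoint_left.1 hst h' hp,
          fun h' => Set.disjoint_left.1 hst h' hp⟩
      · exact Or.inr (Or.inr ⟨a, ⟨haS, hp⟩, rfl⟩)
    · exact Or.inr (Or.inl ⟨p, hp, rfl⟩)
  · have e1 : ∀ z, z ∈ (Sum.inr '' (Sum.inr ⁻¹' s) ∪ Sum.inl '' {a | a ∉ S ∧ Sum.inl a ∈ s} :
        Set (X ⊕ X × X × X)) → z ∈ s := by
      rintro z (⟨p, hp, rfl⟩ | ⟨a, ha, rfl⟩)
      · exact hp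
      · exact ha.2
    have e2 : ∀ z, z ∈ (Sum.inr '' (Sum.inr ⁻¹' t) ∪ Sum.inl '' {a | a ∉ S ∧ Sum.inl a ∈ t} :
        Set (X ⊕ X × X × X)) → z ∈ t := by
      rintro z (⟨p, hp, rfl⟩ | ⟨a, ha, rfl⟩)
      · exact hp
      · exact ha.2
    rw [Set.disjoint_left]
    rintro z (hz | hz) (hz' | hz')
    · exact Set.disjoint_left.1 hUV hz.1 hz'.1
    · exact hz.2 (e2 z hz')
    · exact hz'.2 (e1 z hz)
    · exact Set.disjoint_left.1 hst (e1 z hz) (e2 z hz')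

theorem t1 (hlt : ∀ a ∈ S, ∀ x ∈ L a, x < a) : @T1Space _ (topo S L hbot) := by
  let _ := topo S L hbot
  refine ⟨fun p => ⟨?_⟩⟩
  intro a ha hap
  obtain ⟨b0, hb0⟩ := hbot a ha
  rcases p with p | ⟨x, d, e⟩
  · refine ⟨b0, hb0, a, ?_⟩
    rintro q ⟨x, d, e, rfl, -⟩
    simp
  · by_cases hxa : x < a
    · refine ⟨x, hxa, a, ?_⟩
      rintro q ⟨x', d', e', rfl, -, -, -, -, -, hx', -⟩ hq
      simp only [Set.mem_singleton_iff, Sum.inr.injEq, Prod.mk.injEq] at hq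
      exact absurd hq.1 (ne_of_gt hx')
    · refine ⟨b0, hb0, a, ?_⟩
      rintro q ⟨x', d', e', rfl, hd', he', hxd, hxe, -, -, hor⟩ hq
      simp only [Set.mem_singleton_iff, Sum.inr.injEq, Prod.mk.injEq] at hq
      obtain ⟨rfl, rfl, rfl⟩ := hq
      apply hxa
      rcases hor with rfl | ⟨rfl, -⟩
      · exact hlt _ he' _ hxe
      · exact hlt _ hd' _ hxd

theorem character (hinf : ℵ₀ ≤ #X) (p : X ⊕ X × X × X) : ∃ N : Set (Set (X ⊕ X × X × X)),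
    #N ≤ #X ∧ (@nhds _ (topo S L hbot) p).HasBasis (fun s => s ∈ N) id := by
  let _ := topo S L hbot
  by_cases hp : ∃ a ∈ S, p = Sum.inl a
  · obtain ⟨a, ha, rfl⟩ := hp
    refine ⟨(fun bc : X × X => insert (Sum.inl a) (B S L a bc.1 bc.2)) '' {bc | bc.1 < a}, ?_, ?_⟩
    · refine Cardinal.mk_image_le.trans ((Cardinal.mk_set_le _).trans ?_)
      simp [Cardinal.mul_eq_self hinf]
    · refine ⟨fun t => ?_⟩
      rw [mem_nhds_iff]
      constructor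
      · rintro ⟨U, hUt, hU, haU⟩
        obtain ⟨b, hb, c, hB⟩ := hU a ha haU
        exact ⟨_, ⟨(b, c), hb, rfl⟩, insert_subset (hUt haU) (hB.trans hUt)⟩
      · rintro ⟨_, ⟨⟨b, c⟩, hb, rfl⟩, hsub⟩
        exact ⟨_, hsub, isOpen_N hbot hb, mem_insert _ _⟩
  · push Not at hp
    refine ⟨{{p}}, ?_, ?_⟩
    · rw [Cardinal.mk_singleton]
      exact Cardinal.one_le_aleph0.trans hinf
    · refine ⟨fun t => ?_⟩
      rw [mem_nhds_iff]
      constructor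
      · rintro ⟨U, hUt, hU, haU⟩
        exact ⟨{p}, rfl, singleton_subset_iff.2 (hUt haU)⟩
      · rintro ⟨s, rfl, hsub⟩
        exact ⟨{p}, hsub, isOpen_of_notMem hbot (fun a ha h => hp a ha (Set.mem_singleton_iff.1 h).symm),
          rfl⟩

theorem small_cwh (hX : Bdd X) (D : Set (X ⊕ X × X × X))
    (_hD : IsClosed[topo S L hbot] D)
    (hd : @DiscreteTopology ↥D (@instTopologicalSpaceSubtype _ _ (topo S L hbot)))
    (hcard : #D < #X) :
    ∃ U : X ⊕ X × X × X → Set (X ⊕ X × X × X),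
      (∀ d ∈ D, IsOpen[topo S L hbot] (U d) ∧ d ∈ U d) ∧ D.PairwiseDisjoint U := by
  classical
  let _ := topo S L hbot
  obtain ⟨β, hβ⟩ := hX.bdd {a | Sum.inl a ∈ D} (by
    refine lt_of_le_of_lt ?_ hcard
    exact Cardinal.mk_le_of_injective (f := fun a : {a | Sum.inl a ∈ D} =>
      (⟨Sum.inl a.1, a.2⟩ : D)) (fun a b h => by
        have := congrArg Subtype.val h
        exact Subtype.ext (Sum.inl_injective this)))
  have key : ∀ a, a ∈ S → Sum.inl a ∈ D → ∃ b c, b < a ∧ ∀ p ∈ B S L a b c, p ∉ D := by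
    intro a ha haD
    have h1 : IsOpen ({⟨Sum.inl a, haD⟩} : Set D) := isOpen_discrete _
    obtain ⟨O, hO, hO2⟩ := isOpen_induced_iff.1 h1
    have haO : Sum.inl a ∈ O := by
      have : (⟨Sum.inl a, haD⟩ : D) ∈ Subtype.val ⁻¹' O := by
        rw [hO2]
        rfl
      exact this
    obtain ⟨b, hb, c, hB⟩ := hO a ha haO
    refine ⟨b, c, hb, fun p hp hpD => ?_⟩
    have h2 : (⟨p, hpD⟩ : D) ∈ Subtype.val ⁻¹' O := hB hp
    rw [hO2] at h2
    have h3 : p = Sum.inl a := congrArg Subtype.val h2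
    obtain ⟨x, d, e, h4, -⟩ := hp
    rw [h3] at h4
    exact absurd h4 (by simp)
  choose! bb cc hb hB using key
  let U : X ⊕ X × X × X → Set (X ⊕ X × X × X) := fun p =>
    match p with
    | Sum.inl a => if a ∈ S then insert (Sum.inl a) (B S L a (bb a) (max (cc a) β)) else {Sum.inl a}
    | Sum.inr q => {Sum.inr q}
  have hUS : ∀ a ∈ S, U (Sum.inl a) = insert (Sum.inl a) (B S L a (bb a) (max (cc a) β)) :=
    fun a ha => if_pos ha
  have hUn : ∀ a ∉ S, U (Sum.inl a) = {Sum.inl a} := fun a ha => if_neg ha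
  have hUr : ∀ q, U (Sum.inr q) = {Sum.inr q} := fun q => rfl
  refine ⟨U, ?_, ?_⟩
  · rintro (a | q) hp
    · by_cases ha : a ∈ S
      · rw [hUS a ha]
        exact ⟨isOpen_N hbot (hb a ha hp), mem_insert _ _⟩
      · rw [hUn a ha]
        refine ⟨isOpen_of_notMem hbot ?_, rfl⟩
        rintro a' ha' h
        obtain rfl : a' = a := Sum.inl_injective h
        exact ha ha'
    · rw [hUr]
      refine ⟨isOpen_of_notMem hbot ?_, rfl⟩
      rintro a' ha' h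
      exact absurd h (by simp)
  · -- the basic sets only contain their own point from `D`
    have hin : ∀ a, Sum.inl a ∈ D → ∀ z ∈ U (Sum.inl a), z ≠ Sum.inl a →
        a ∈ S ∧ z ∈ B S L a (bb a) (max (cc a) β) ∧ z ∉ D := by
      intro a haD z hz hne
      by_cases ha : a ∈ S
      · rw [hUS a ha] at hz
        rcases hz with hz | hz
        · exact absurd hz hne
        · exact ⟨ha, hz, hB a ha haD z (B_mono S L le_rfl (le_max_left _ _) hz)⟩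
      · rw [hUn a ha] at hz
        exact absurd hz hne
    have main : ∀ a a', Sum.inl a ∈ D → Sum.inl a' ∈ D → a < a' →
        Disjoint (U (Sum.inl a)) (U (Sum.inl a')) := by
      intro a a' haD ha'D hlt
      rw [Set.disjoint_left]
      intro z hz hz'
      by_cases h1 : z = Sum.inl a
      · have h2 := hin a' ha'D z hz' (by
          rw [h1]
          exact fun h => hlt.ne (Sum.inl_injective h))
        rw [h1] at h2
        exact h2.2.2 haD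
      · obtain ⟨haS, hzB, hzD⟩ := hin a haD z hz h1
        have h2 : z ≠ Sum.inl a' := fun h => hzD (h ▸ ha'D)
        obtain ⟨ha'S, hzB', -⟩ := hin a' ha'D z hz' h2
        obtain ⟨x, d, e, rfl, -, -, -, -, hde, -, hor⟩ := hzB
        obtain ⟨x', d', e', he, -, -, -, -, -, -, hor'⟩ := hzB'
        simp only [Sum.inr.injEq, Prod.mk.injEq] at he
        obtain ⟨rfl, rfl, rfl⟩ := he
        have hβ1 : a < β := hβ a haD
        have hβ2 : a' < β := hβ a' ha'D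
        rcases hor with rfl | ⟨rfl, hc⟩
        · rcases hor' with rfl | ⟨rfl, hc'⟩
          · exact lt_irrefl _ hlt
          · exact absurd (hlt.trans hde) (lt_irrefl _)
        · rcases hor' with rfl | ⟨rfl, hc'⟩
          · exact absurd ((le_max_right _ _).trans_lt hc) (not_lt.2 hβ2.le)
          · exact lt_irrefl _ hlt
    rintro (a | q) hp (a' | q') hp' hne
    · rcases lt_trichotomy a a' with h | h | h
      · exact main a a' hp hp' h
      · exact absurd (congrArg Sum.inl h) hne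
      · exact (main a' a hp' hp h).symm
    · change Disjoint (U (Sum.inl a)) (U (Sum.inr q'))
      rw [hUr, Set.disjoint_singleton_right]
      intro h
      exact (hin a hp _ h (by simp)).2.2 hp'
    · change Disjoint (U (Sum.inr q)) (U (Sum.inl a'))
      rw [hUr, Set.disjoint_singleton_left]
      intro h
      exact (hin a' hp' _ h (by simp)).2.2 hp
    · change Disjoint (U (Sum.inr q)) (U (Sum.inr q'))
      rw [hUr, hUr, Set.disjoint_singleton]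
      exact hne

theorem closed_S : IsClosed[topo S L hbot] (Sum.inl '' S) := by
  let _ := topo S L hbot
  refine ⟨isOpen_of_notMem hbot fun a ha h => h ⟨a, ha, rfl⟩⟩

theorem discrete_S : @DiscreteTopology ↥(Sum.inl '' S : Set (X ⊕ X × X × X))
    (@instTopologicalSpaceSubtype _ _ (topo S L hbot)) := by
  let _ := topo S L hbot
  refine ⟨eq_bot_of_singletons_open ?_⟩
  rintro ⟨_, a, ha, rfl⟩
  obtain ⟨b, hb⟩ := hbot a ha
  refine isOpen_induced_iff.2 ⟨_, isOpen_N (L := L) hbot (c := a) hb, ?_⟩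
  ext ⟨z, hz⟩
  simp only [Set.mem_preimage, Set.mem_insert_iff, Set.mem_singleton_iff]
  constructor
  · rintro (h | ⟨x, d, e, rfl, -⟩)
    · exact Subtype.ext h
    · obtain ⟨a', _, h'⟩ := hz
      exact absurd h' (by simp)
  · exact fun h => Or.inl (congrArg Subtype.val h)

theorem not_separated [WellFoundedLT X] (hX : Bdd X) (h0 : ℵ₀ < #X)
    (hseg : ∀ z : X, #(Set.Iio z) < #X) (h : UnifLadder S L)
    (U : X ⊕ X × X × X → Set (X ⊕ X × X × X))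
    (hU : ∀ d ∈ (Sum.inl '' S : Set (X ⊕ X × X × X)), IsOpen[topo S L hbot] (U d) ∧ d ∈ U d) :
    ¬ (Sum.inl '' S : Set (X ⊕ X × X × X)).PairwiseDisjoint U := by
  classical
  intro hdis
  have hinf : ℵ₀ ≤ #X := h0.le
  have h1 : ∀ a, a ∈ S → ∃ b c, b < a ∧ B S L a b c ⊆ U (Sum.inl a) := by
    intro a ha
    obtain ⟨b, hb, c, hB⟩ := (hU _ ⟨a, ha, rfl⟩).1 a ha (hU _ ⟨a, ha, rfl⟩).2
    exact ⟨b, c, hb, hB⟩
  choose! bb cc hb hB using h1
  have h2 : ∀ a, a ∈ S → ∃ x ∈ L a, bb a < x ∧ x < a := fun a ha => h.unb a ha _ (hb a ha)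
  choose! xx hx1 hx2 hx3 using h2
  -- the least point of `S` with a given value of `xx`
  have h3 : ∀ x : X, ∃ g : X, ∀ a ∈ S, xx a = x → ∃ a0 ∈ S, xx a0 = x ∧ a0 ≤ g ∧ cc a0 ≤ g ∧
      a0 ≤ a := by
    intro x
    by_cases hne : {a | a ∈ S ∧ xx a = x}.Nonempty
    · have hm := (wellFounded_lt (α := X)).min_mem _ hne
      refine ⟨max ((wellFounded_lt (α := X)).min _ hne) (cc ((wellFounded_lt (α := X)).min _ hne)),
        fun a ha hax => ⟨_, hm.1, hm.2, le_max_left _ _, le_max_right _ _, ?_⟩⟩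
      exact not_lt.1 ((wellFounded_lt (α := X)).not_lt_min _ (⟨ha, hax⟩ : a ∈ {a | a ∈ S ∧ xx a = x}))
    · exact ⟨x, fun a ha hax => absurd ⟨a, ha, hax⟩ hne⟩
  choose g hg using h3
  -- the club of closure points of `g`
  let C : Set X := {c | (∃ b, b < c) ∧ ∀ x < c, g x < c}
  have hCcl : ∀ d, (∃ b, b < d) → (∀ b < d, ∃ c ∈ C, b < c ∧ c < d) → d ∈ C := by
    intro d hd0 hd
    refine ⟨hd0, fun x hx => ?_⟩
    obtain ⟨c, hc, hxc, hcd⟩ := hd x hx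
    exact (hc.2 x hxc).trans hcd
  have hCu : ∀ b, ∃ c ∈ C, b < c := by
    intro b
    have hstep : ∀ z : X, ∃ z', z < z' ∧ ∀ x ≤ z, g x < z' := by
      intro z
      obtain ⟨t, ht⟩ := hX.bdd (insert z (g '' Set.Iic z)) (by
        refine lt_of_le_of_lt Cardinal.mk_insert_le ?_
        refine Cardinal.add_lt_of_lt hinf ?_ (lt_of_lt_of_le Cardinal.one_lt_aleph0 hinf)
        refine lt_of_le_of_lt Cardinal.mk_image_le ?_
        have h4 : #(Set.Iic z) ≤ #(Set.Iio z) + 1 := by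
          have : Set.Iic z = insert z (Set.Iio z) := by
            ext y
            simp only [Set.mem_Iic, Set.mem_insert_iff, Set.mem_Iio]
            exact le_iff_eq_or_lt
          rw [this]
          exact Cardinal.mk_insert_le
        exact h4.trans_lt (Cardinal.add_lt_of_lt hinf (hseg z)
          (lt_of_lt_of_le Cardinal.one_lt_aleph0 hinf)))
      exact ⟨t, ht z (mem_insert _ _), fun x hx => ht _ (mem_insert_of_mem _ ⟨x, hx, rfl⟩)⟩
    choose w hw1 hw2 using hstep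
    let f : ℕ → X := fun n => Nat.rec b (fun _ x => w x) n
    have hf : ∀ n, f (n + 1) = w (f n) := fun n => rfl
    obtain ⟨c, hc⟩ := exists_isLUB hX (S := range f)
      (lt_of_le_of_lt (Cardinal.mk_le_aleph0_iff.2 (Set.countable_range _)) h0)
    have hlt : ∀ n, f n < c := fun n => (hw1 (f n)).trans_le (hc.1 ⟨n + 1, rfl⟩)
    refine ⟨c, ⟨⟨b, hlt 0⟩, fun x hx => ?_⟩, hlt 0⟩
    have h5 : ∃ n, x < f n := by
      by_contra hcon
      push Not at hcon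
      refine absurd hx (not_lt.2 (hc.2 ?_))
      rintro _ ⟨n, rfl⟩
      exact hcon n
    obtain ⟨n, hn⟩ := h5
    exact (hw2 (f n) x hn.le).trans (hlt (n + 1))
  obtain ⟨a, ha, haC⟩ := h.stat C hCu hCcl
  have hga := haC.2 (xx a) (hx3 a ha)
  obtain ⟨a0, ha0, hxa0, h6, h7, h8⟩ := hg (xx a) a ha rfl
  have hlt : a0 < a := h6.trans_lt hga
  have hcc : cc a0 < a := h7.trans_lt hga
  have h9 : (Sum.inr (xx a, a0, a) : X ⊕ X × X × X) ∈ U (Sum.inl a0) :=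
    hB a0 ha0 ⟨xx a, a0, a, rfl, ha0, ha, hxa0 ▸ hx1 a0 ha0, hx1 a ha, hlt, hxa0 ▸ hx2 a0 ha0,
      Or.inr ⟨rfl, hcc⟩⟩
  have h10 : (Sum.inr (xx a, a0, a) : X ⊕ X × X × X) ∈ U (Sum.inl a) :=
    hB a ha ⟨xx a, a0, a, rfl, ha0, ha, hxa0 ▸ hx1 a0 ha0, hx1 a ha, hlt, hx2 a ha, Or.inl rfl⟩
  exact Set.disjoint_left.1 (hdis ⟨a0, ha0, rfl⟩ ⟨a, ha, rfl⟩
    (fun h => hlt.ne (Sum.inl_injective h))) h9 h10

end

end Pool.Agent.K7.H35.U
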