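import Mathlib
import Pool.Agent.K7.H35.U.Top
import Pool.Agent.K7.H35.U.Final
set_option autoImplicit false
set_option linter.unusedSectionVars false

/-!
# A normal space which is `< κ`-collectionwise Hausdorff but not `κ`-collectionwise Hausdorff
-/

namespace Pool.Agent.K7.H35.U

open Cardinal Set Topology

/-- There is a normal `T₁` space of character at most `κ` in which all closed discrete sets of
size less than `κ` are separated, but some closed discrete set of size `κ` is not. -/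
def FailsAt (κ : Cardinal.{0}) : Prop :=
  ∃ (T : Type) (_ : TopologicalSpace T) (_ : T4Space T),
    (∀ x : T, ∃ N : Set (Set T), #N ≤ κ ∧ (𝓝 x).HasBasis (fun s => s ∈ N) id) ∧
    (∀ D : Set T, IsClosed D → DiscreteTopology D → #D < κ →
      ∃ U : T → Set T, (∀ d ∈ D, IsOpen (U d) ∧ d ∈ U d) ∧ D.PairwiseDisjoint U) ∧
    ∃ D : Set T, IsClosed D ∧ DiscreteTopology D ∧ #D = κ ∧
      ¬ ∃ U : T → Set T, (∀ d ∈ D, IsOpen (U d) ∧ d ∈ U d) ∧ D.PairwiseDisjoint U

theorem failsAt_of_unifLadder {κ : Cardinal.{0}} (h0 : ℵ₀ < κ) (hκ : κ.IsRegular)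
    {S : Set κ.ord.ToType} {L : κ.ord.ToType → Set κ.ord.ToType} (h : UnifLadder S L) :
    FailsAt κ := by
  classical
  have hX : Bdd κ.ord.ToType := bdd_ord hκ
  have hcard : #κ.ord.ToType = κ := mk_ord_toType κ
  have h0X : ℵ₀ < #κ.ord.ToType := by rw [hcard]; exact h0
  have hseg : ∀ z : κ.ord.ToType, #(Set.Iio z) < #κ.ord.ToType := by
    intro z
    rw [hcard]
    simpa using mk_Iio_lt z
  -- remove the least element
  let S' : Set κ.ord.ToType := {a | a ∈ S ∧ ∃ b, b < a}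
  have hbot : ∀ a ∈ S', ∃ b, b < a := fun a ha => ha.2
  have h' : UnifLadder S' L := by
    refine ⟨fun C hC1 hC2 => ?_, fun a ha => h.lt a ha.1, fun a ha => h.unb a ha.1, fun A => ?_⟩
    · obtain ⟨a, ha, haC⟩ := h.stat {c | c ∈ C ∧ ∃ b, b < c} (by
        intro b
        obtain ⟨c, hc, hbc⟩ := hC1 b
        exact ⟨c, ⟨hc, b, hbc⟩, hbc⟩) (by
        intro d hd0 hd
        refine ⟨hC2 d hd0 fun b hb => ?_, hd0⟩
        obtain ⟨c, hc, h1⟩ := hd b hb
        exact ⟨c, hc.1, h1⟩)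
      exact ⟨a, ⟨ha, haC.2⟩, haC.1⟩
    · obtain ⟨Y, hY1, hY2⟩ := h.unif A
      exact ⟨Y, hY1, fun a ha => hY2 a ha.1⟩
  let T := κ.ord.ToType ⊕ κ.ord.ToType × κ.ord.ToType × κ.ord.ToType
  let τ : TopologicalSpace T := topo S' L hbot
  have hn : NormalSpace T := normal hbot hX h0X h'
  have ht : T1Space T := t1 hbot h'.lt
  have hsmall : ∀ D : Set T, IsClosed D → DiscreteTopology D → #D < κ →
      ∃ U : T → Set T, (∀ d ∈ D, IsOpen (U d) ∧ d ∈ U d) ∧ D.PairwiseDisjoint U := by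
    intro D hD hd hDκ
    exact small_cwh hbot hX D hD hd (by rw [hcard]; exact hDκ)
  have hD1 : IsClosed (Sum.inl '' S' : Set T) := closed_S hbot
  have hD2 : DiscreteTopology (Sum.inl '' S' : Set T) := discrete_S hbot
  have hD3 : ¬ ∃ U : T → Set T, (∀ d ∈ (Sum.inl '' S' : Set T), IsOpen (U d) ∧ d ∈ U d) ∧
      (Sum.inl '' S' : Set T).PairwiseDisjoint U := by
    rintro ⟨U, hU, hdis⟩
    exact not_separated hbot hX h0X hseg h' U hU hdis
  refine ⟨T, τ, { toT1Space := ht, toNormalSpace := hn }, ?_, hsmall, Sum.inl '' S', hD1, hD2,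
    ?_, hD3⟩
  · intro x
    obtain ⟨N, hN, hN2⟩ := character (L := L) hbot h0X.le x
    exact ⟨N, by rw [← hcard]; exact hN, hN2⟩
  · refine le_antisymm ?_ ?_
    · refine Cardinal.mk_image_le.trans ((Cardinal.mk_set_le _).trans ?_)
      rw [hcard]
    · by_contra hcon
      exact hD3 (hsmall _ hD1 hD2 (not_le.1 hcon))

end Pool.Agent.K7.H35.U
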